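import Mathlib

/-! # Sieve definitions (primes `2` and `5` are left out) -/

set_option autoImplicit false

namespace Pool.Agent.H476R2.Pal

open Finset

/-- product of the primes `< z` other than `2, 5` -/
def PZ (z : ℕ) : ℕ := ∏ p ∈ (range z).filter (fun p => p.Prime ∧ ¬ p ∣ 10), p

/-- `∏_{p < z, p ≠ 2, 5} (1 - 1/p)` -/
noncomputable def VZ (z : ℕ) : ℝ := ∏ p ∈ (range z).filter (fun p => p.Prime ∧ ¬ p ∣ 10), (1 - 1 / (p : ℝ))

/-- Selberg's function `∑_{l ≤ ξ, l ∣ P(z)} 1/φ(l)` -/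
noncomputable def GZ (ξ : ℝ) (z : ℕ) : ℝ :=
  ∑ l ∈ (PZ z).divisors.filter (fun l : ℕ => (l : ℝ) ≤ ξ), 1 / (l.totient : ℝ)

/-- number of `i ∈ S` with `d ∣ v i` and `v i` free of prime factors `< z` other than `2, 5` -/
noncomputable def sift {ι : Type} (S : Finset ι) (v : ι → ℕ) (d z : ℕ) : ℝ :=
  (S.filter (fun i => d ∣ v i ∧ (v i).Coprime (PZ z))).card

/-- the remainder -/
noncomputable def rem {ι : Type} (S : Finset ι) (v : ι → ℕ) (X : ℝ) (d : ℕ) : ℝ :=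
  (S.filter (fun i => d ∣ v i)).card - X / d

/-- the total remainder at level `D` -/
noncomputable def Rem {ι : Type} (S : Finset ι) (v : ι → ℕ) (X D : ℝ) : ℝ :=
  ∑ q ∈ (Icc 1 ⌊D⌋₊).filter (fun q => q.Coprime 10), (q.divisors.card : ℝ) ^ 2 * |rem S v X q|

end Pool.Agent.H476R2.Pal
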