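import Mathlib
import Pool.Agent.Helper112.LS

/-!
# Palindromes: definitions for the distribution theorem and the almost-prime theorem

* `fr L c` : the integer multiplied by the `c`-th digit (counted from the middle) of a palindrome with
  `2 L + 1` digits.
* `ph β = |∑_{m<10} e(m β)| / 10`
* `Ps L A J α = ∏_{A ≤ c < A+J} ph (fr L c * α)`  (block product)
* `pv L m` : the palindrome `1 m_{L-1} … m_1 m_0 m_1 … m_{L-1} 1`.
-/

set_option autoImplicit false

namespace Pool.Agent.H476R2.Pal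

open Finset Pool.Agent.Helper112

/-- frequency of the digit at distance `c` from the middle -/
def fr (L c : ℕ) : ℕ := if c = 0 then 10 ^ L else 10 ^ (L + c) + 10 ^ (L - c)

/-- normalised digit sum -/
noncomputable def ph (β : ℝ) : ℝ := ‖∑ m ∈ range 10, ee (m * β)‖ / 10

/-- block product over the digit positions `A, …, A+J-1` -/
noncomputable def Ps (L A J : ℕ) (α : ℝ) : ℝ := ∏ j ∈ range J, ph (fr L (A + j) * α)

/-- the palindrome `1 m_{L-1} … m_1 m_0 m_1 … m_{L-1} 1` with `2 L + 1` digits (for `L ≥ 1`) -/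
def pv (L : ℕ) (m : Fin L → Fin 10) : ℕ :=
  10 ^ (2 * L) + 1 + ∑ c : Fin L, (m c : ℕ) * fr L c

/-- sum over the reduced fractions `a / q`, `Q ≤ q < 2 Q`, `q` coprime to `10` -/
noncomputable def pts (Q : ℕ) (f : ℝ → ℝ) : ℝ :=
  ∑ q ∈ (Ico Q (2 * Q)).filter (fun q => q.Coprime 10),
    ∑ a ∈ (range q).filter (fun a => a.Coprime q), f ((a : ℝ) / q)

/-- sum over all fractions `a / q`, `Q ≤ q < 2 Q`, `q` coprime to `10` -/
noncomputable def apts (Q : ℕ) (f : ℝ → ℝ) : ℝ :=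
  ∑ q ∈ (Ico Q (2 * Q)).filter (fun q => q.Coprime 10), ∑ a ∈ range q, f ((a : ℝ) / q)

/-- the reduced part at denominator `q` -/
noncomputable def U (L q : ℕ) : ℝ :=
  ∑ a ∈ (range q).filter (fun a => a.Coprime q), Ps L 0 L ((a : ℝ) / q)

/-- number of `m` with `pv L m ≡ h (mod q)` -/
noncomputable def cnt (L q h : ℕ) : ℝ :=
  ((univ : Finset (Fin L → Fin 10)).filter (fun m => pv L m ≡ h [MOD q])).card

/-! ### basic facts -/

lemma ph_nonneg (β : ℝ) : 0 ≤ ph β := by unfold ph; positivity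

lemma ph_le_one (β : ℝ) : ph β ≤ 1 := by
  unfold ph
  rw [div_le_one (by norm_num)]
  calc ‖∑ m ∈ range 10, ee (m * β)‖ ≤ ∑ m ∈ range 10, ‖ee (m * β)‖ := norm_sum_le _ _
    _ = 10 := by simp [ls_norm_ee]

lemma ph_add_int (β : ℝ) (k : ℤ) : ph (β + k) = ph β := by
  unfold ph
  congr 2
  apply sum_congr rfl
  intro m _
  have : ((m : ℝ) * (β + k)) = m * β + ((m * k : ℤ) : ℝ) := by push_cast; ring
  rw [this, ls_ee_add, ls_ee_int, mul_one]

lemma ph_add_nat (β : ℝ) (k : ℕ) : ph (β + k) = ph β := by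
  have := ph_add_int β k
  simpa using this

lemma Ps_nonneg (L A J : ℕ) (α : ℝ) : 0 ≤ Ps L A J α := prod_nonneg fun _ _ => ph_nonneg _

lemma Ps_le_one (L A J : ℕ) (α : ℝ) : Ps L A J α ≤ 1 :=
  prod_le_one (fun _ _ => ph_nonneg _) (fun _ _ => ph_le_one _)

lemma Ps_add (L A J K : ℕ) (α : ℝ) : Ps L A (J + K) α = Ps L A J α * Ps L (A + J) K α := by
  unfold Ps
  rw [prod_range_add]
  simp only [add_assoc]

lemma Ps_zero (L A : ℕ) (α : ℝ) : Ps L A 0 α = 1 := by simp [Ps]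

lemma Ps_add_int (L A J : ℕ) (α : ℝ) (k : ℤ) : Ps L A J (α + k) = Ps L A J α := by
  unfold Ps
  apply prod_congr rfl
  intro j _
  have : (fr L (A + j) : ℝ) * (α + k) = fr L (A + j) * α + ((fr L (A + j) * k : ℤ) : ℝ) := by
    push_cast; ring
  rw [this, ph_add_int]

/-- the blocks as a sub-product of the whole product -/
lemma Ps_le_block (L A J M : ℕ) (h : A + J ≤ M) (α : ℝ) : Ps L 0 M α ≤ Ps L A J α := by
  obtain ⟨K, rfl⟩ := Nat.exists_eq_add_of_le h
  rw [Ps_add, Ps_add, Nat.zero_add, Nat.zero_add]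
  have h1 := Ps_le_one L 0 A α
  have h2 := Ps_nonneg L 0 A α
  have h3 := Ps_le_one L (A + J) K α
  have h4 := Ps_nonneg L (A + J) K α
  have h5 := Ps_nonneg L A J α
  calc Ps L 0 A α * Ps L A J α * Ps L (A + J) K α ≤ 1 * Ps L A J α * 1 := by
        gcongr
    _ = _ := by ring

/-- rescaling of frequencies -/
lemma fr_scale {L M c : ℕ} (hM : M ≤ L) (hc : c ≤ M) : fr L c = 10 ^ (L - M) * fr M c := by
  unfold fr
  split_ifs with h
  · rw [← pow_add]; congr 1; omega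
  · rw [mul_add, ← pow_add, ← pow_add]
    congr 2 <;> omega

lemma Ps_scale {L M A J : ℕ} (hM : M ≤ L) (hA : A + J ≤ M + 1) (α : ℝ) :
    Ps L A J α = Ps M A J (10 ^ (L - M) * α) := by
  unfold Ps
  apply prod_congr rfl
  intro j hj
  rw [mem_range] at hj
  rw [fr_scale hM (show A + j ≤ M by omega)]
  congr 1
  push_cast
  ring

/-- an injective self-map of a finite set does not change sums -/
lemma sum_perm_image {s : Finset ℕ} (g : ℕ → ℕ) (hmaps : ∀ a ∈ s, g a ∈ s)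
    (hinj : ∀ a ∈ s, ∀ b ∈ s, g a = g b → a = b) (F : ℕ → ℝ) :
    ∑ a ∈ s, F (g a) = ∑ a ∈ s, F a := by
  have himg : s.image g = s :=
    eq_of_subset_of_card_le (image_subset_iff.2 hmaps)
      (card_image_of_injOn (fun a ha b hb h => hinj a ha b hb h)).ge
  conv_rhs => rw [← himg]
  rw [sum_image (fun a ha b hb h => hinj a ha b hb h)]

lemma dilate_step {q : ℕ} (h0 : 0 < q) (k a : ℕ) (f : ℝ → ℝ) (hf : ∀ (x : ℝ) (n : ℤ), f (x + n) = f x) :
    f (10 ^ k * ((a : ℝ) / q)) = f (((((10 ^ k * a) % q : ℕ)) : ℝ) / q) := by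
  have hq0 : (q : ℝ) ≠ 0 := by exact_mod_cast h0.ne'
  have h1 := Nat.div_add_mod (10 ^ k * a) q
  generalize hr : (10 ^ k * a) % q = r at *
  generalize hd : (10 ^ k * a) / q = d at *
  have h3 : ((q : ℝ) * d + r) = 10 ^ k * a := by exact_mod_cast h1
  have h2 : (10 : ℝ) ^ k * ((a : ℝ) / q) = (r : ℝ) / q + ((d : ℤ) : ℝ) := by
    rw [← mul_div_assoc, ← h3]
    field_simp
    push_cast
    ring
  rw [h2, hf]

/-- multiplication by `10 ^ k` permutes the reduced residues -/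
lemma dilate {q : ℕ} (hq : q.Coprime 10) (k : ℕ) (f : ℝ → ℝ) (hf : ∀ (x : ℝ) (n : ℤ), f (x + n) = f x) :
    ∑ a ∈ (range q).filter (fun a => a.Coprime q), f (10 ^ k * ((a : ℝ) / q)) =
      ∑ a ∈ (range q).filter (fun a => a.Coprime q), f ((a : ℝ) / q) := by
  rcases Nat.eq_zero_or_pos q with h0 | h0
  · subst h0; simp
  have hcop : (10 ^ k).Coprime q := (hq.symm.pow_left k)
  rw [← sum_perm_image (s := (range q).filter (fun a => a.Coprime q)) (fun a => (10 ^ k * a) % q) ?_ ?_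
    (fun a => f ((a : ℝ) / q))]
  · exact sum_congr rfl fun a _ => dilate_step h0 k a f hf
  · intro a ha
    rw [mem_filter, mem_range] at ha ⊢
    refine ⟨Nat.mod_lt _ h0, ?_⟩
    have h1 : (10 ^ k * a).Coprime q := Nat.Coprime.mul_left hcop ha.2
    have h2 : Nat.gcd ((10 ^ k * a) % q) q = Nat.gcd q (10 ^ k * a) := (Nat.gcd_rec _ _).symm
    rw [Nat.Coprime, h2, Nat.gcd_comm]
    exact h1
  · intro a ha b hb hab
    rw [mem_filter, mem_range] at ha hb
    have h1 : 10 ^ k * a ≡ 10 ^ k * b [MOD q] := hab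
    have h2 : a ≡ b [MOD q] := Nat.ModEq.cancel_left_of_coprime (by rw [Nat.gcd_comm]; exact hcop) h1
    rwa [Nat.ModEq, Nat.mod_eq_of_lt ha.1, Nat.mod_eq_of_lt hb.1] at h2

/-- multiplication by `10 ^ k` permutes all residues -/
lemma dilate_all {q : ℕ} (hq : q.Coprime 10) (k : ℕ) (f : ℝ → ℝ) (hf : ∀ (x : ℝ) (n : ℤ), f (x + n) = f x) :
    ∑ a ∈ range q, f (10 ^ k * ((a : ℝ) / q)) = ∑ a ∈ range q, f ((a : ℝ) / q) := by
  rcases Nat.eq_zero_or_pos q with h0 | h0
  · subst h0; simp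
  have hcop : (10 ^ k).Coprime q := (hq.symm.pow_left k)
  rw [← sum_perm_image (s := range q) (fun a => (10 ^ k * a) % q) ?_ ?_ (fun a => f ((a : ℝ) / q))]
  · exact sum_congr rfl fun a _ => dilate_step h0 k a f hf
  · intro a _
    rw [mem_range]
    exact Nat.mod_lt _ h0
  · intro a ha b hb hab
    rw [mem_range] at ha hb
    have h1 : 10 ^ k * a ≡ 10 ^ k * b [MOD q] := hab
    have h2 : a ≡ b [MOD q] := Nat.ModEq.cancel_left_of_coprime (by rw [Nat.gcd_comm]; exact hcop) h1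
    rwa [Nat.ModEq, Nat.mod_eq_of_lt ha, Nat.mod_eq_of_lt hb] at h2

end Pool.Agent.H476R2.Pal
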