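import Mathlib

set_option autoImplicit false

namespace Pool.Agent.H476R2.Pal

theorem gamma_lt : Real.eulerMascheroniConstant < 593 / 1000 := by
  have h1 : Real.eulerMascheroniConstant < Real.eulerMascheroniSeq' 32 :=
    Real.eulerMascheroniConstant_lt_eulerMascheroniSeq' 32
  have h2 : Real.eulerMascheroniSeq' 32 = (harmonic 32 : ℝ) - Real.log 32 := by
    simp [Real.eulerMascheroniSeq']
  have h3 : Real.log 32 = 5 * Real.log 2 := by
    rw [show (32 : ℝ) = 2 ^ 5 by norm_num, Real.log_pow]; norm_num
  have h4 := Real.log_two_gt_d9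
  have h5 : (harmonic 32 : ℝ) < 40586 / 10000 := by
    have : harmonic 32 < 40586 / 10000 := by
      rw [harmonic]
      norm_num [Finset.sum_range_succ]
    have h6 : ((harmonic 32 : ℚ) : ℝ) < ((40586 / 10000 : ℚ) : ℝ) := by exact_mod_cast this
    refine h6.trans_le ?_
    norm_num
  rw [h2, h3] at h1
  linarith

end Pool.Agent.H476R2.Pal
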