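import Mathlib
import Pool.Agent.H476R2.Pal.Defs

set_option autoImplicit false

namespace Pool.Agent.H476R2.Pal

open Finset Pool.Agent.Helper112

lemma pts_nonneg {Q : ℕ} {f : ℝ → ℝ} (hf : ∀ x, 0 ≤ f x) : 0 ≤ pts Q f :=
  sum_nonneg fun _ _ => sum_nonneg fun _ _ => hf _

lemma pts_mono {Q : ℕ} {f g : ℝ → ℝ} (h : ∀ x, f x ≤ g x) : pts Q f ≤ pts Q g :=
  sum_le_sum fun _ _ => sum_le_sum fun _ _ => h _

lemma pts_le_apts {Q : ℕ} {f : ℝ → ℝ} (hf : ∀ x, 0 ≤ f x) : pts Q f ≤ apts Q f :=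
  sum_le_sum fun _ _ => sum_le_sum_of_subset_of_nonneg (filter_subset _ _) fun _ _ _ => hf _

lemma pts_add {Q : ℕ} (f g : ℝ → ℝ) : pts Q (fun x => f x + g x) = pts Q f + pts Q g := by
  unfold pts
  simp only [sum_add_distrib]

lemma pts_mul_left {Q : ℕ} (c : ℝ) (f : ℝ → ℝ) : pts Q (fun x => c * f x) = c * pts Q f := by
  unfold pts
  simp only [mul_sum]

lemma pts_sum {Q : ℕ} {ι : Type*} (s : Finset ι) (f : ι → ℝ → ℝ) :
    pts Q (fun x => ∑ i ∈ s, f i x) = ∑ i ∈ s, pts Q (f i) := by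
  unfold pts
  rw [sum_comm]
  apply sum_congr rfl
  intro q _
  rw [sum_comm]

/-- Cauchy-Schwarz for `pts` -/
lemma pts_cs {Q : ℕ} (f g : ℝ → ℝ) :
    (pts Q (fun x => f x * g x)) ^ 2 ≤ pts Q (fun x => f x ^ 2) * pts Q (fun x => g x ^ 2) := by
  unfold pts
  rw [sum_sigma', sum_sigma', sum_sigma']
  exact sum_mul_sq_le_sq_mul_sq _ _ _

/-- main range -/
theorem big_of {L k J Q : ℕ} {T : ℝ} (hT1 : 1 ≤ T) (hQ : 0 ≤ (Q : ℝ))
    (hk : 4 * k ≤ J) (hkJ : 4 * k + 2 * J ≤ L)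
    (hT1' : pts Q (fun α => Ps L 0 (4 * k) α ^ 4 * Ps L (4 * k) (J - 4 * k) α ^ 2) ≤
      144 * Q * (67 / 100) ^ (4 * k))
    (hA : apts Q (fun α => Ps L (4 * k) J α ^ 2) ≤ 2 * Q + 2 * Q * T)
    (hB : apts Q (fun α => Ps L (J + 4 * k) J α ^ 2) ≤ 2 * Q + 2 * Q * T) :
    pts Q (Ps L 0 L) ≤ 28 * Q * T * (67 / 100) ^ k := by
  set lam : ℝ := (67 / 100) ^ k with hlam
  have hlam0 : 0 < lam := by positivity
  have hA' : pts Q (fun α => Ps L (4 * k) J α ^ 2) ≤ 4 * Q * T := by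
    refine (pts_le_apts fun _ => sq_nonneg _).trans (hA.trans ?_)
    nlinarith
  have hB' : pts Q (fun α => Ps L (J + 4 * k) J α ^ 2) ≤ 4 * Q * T := by
    refine (pts_le_apts fun _ => sq_nonneg _).trans (hB.trans ?_)
    nlinarith
  -- pointwise
  have hpt : ∀ α, Ps L 0 L α ≤ lam * (Ps L (4 * k) J α * Ps L (J + 4 * k) J α) +
      lam⁻¹ * ((Ps L 0 (4 * k) α ^ 2 * Ps L (4 * k) (J - 4 * k) α) * Ps L (J + 4 * k) J α) := by
    intro α
    set x := Ps L 0 (4 * k) α with hx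
    have hx0 : 0 ≤ x := Ps_nonneg _ _ _ _
    have hx1 : x ≤ 1 := Ps_le_one _ _ _ _
    set y := Ps L (4 * k) (J - 4 * k) α with hy
    have hy0 : 0 ≤ y := Ps_nonneg _ _ _ _
    set w := Ps L J (4 * k) α with hw
    have hw0 : 0 ≤ w := Ps_nonneg _ _ _ _
    have hw1 : w ≤ 1 := Ps_le_one _ _ _ _
    set u := Ps L (J + 4 * k) J α with hu
    have hu0 : 0 ≤ u := Ps_nonneg _ _ _ _
    have e1 : Ps L (4 * k) J α = y * w := by
      have h1 : J = (J - 4 * k) + 4 * k := by omega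
      conv_lhs => rw [h1]
      rw [Ps_add, show 4 * k + (J - 4 * k) = J by omega]
    have e2 : Ps L 0 L α ≤ x * (y * w) * u := by
      have h1 : L = (4 * k + J) + (J + (L - (4 * k + 2 * J))) := by omega
      calc Ps L 0 L α = Ps L 0 ((4 * k + J) + (J + (L - (4 * k + 2 * J)))) α := by rw [← h1]
        _ = x * (y * w) * (u * Ps L (J + 4 * k + J) (L - (4 * k + 2 * J)) α) := by
            rw [Ps_add, Ps_add, Ps_add, Nat.zero_add, Nat.zero_add, e1,
              show 4 * k + J = J + 4 * k by omega]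
        _ ≤ x * (y * w) * (u * 1) := by
            gcongr
            exact Ps_le_one _ _ _ _
        _ = _ := by ring
    rw [e1]
    refine e2.trans ?_
    have hxl : x ≤ lam + lam⁻¹ * x ^ 2 := by
      rcases le_total x lam with h | h
      · have : 0 ≤ lam⁻¹ * x ^ 2 := by positivity
        linarith
      · have : x ≤ lam⁻¹ * x ^ 2 := by
          rw [inv_mul_eq_div, le_div_iff₀ hlam0]
          nlinarith
        linarith
    calc x * (y * w) * u ≤ (lam + lam⁻¹ * x ^ 2) * (y * w) * u := by gcongr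
      _ = lam * (y * w * u) + lam⁻¹ * (x ^ 2 * y * u) * w := by ring
      _ ≤ lam * (y * w * u) + lam⁻¹ * (x ^ 2 * y * u) * 1 := by gcongr
      _ = _ := by ring
  have h1 : pts Q (Ps L 0 L) ≤ lam * pts Q (fun α => Ps L (4 * k) J α * Ps L (J + 4 * k) J α) +
      lam⁻¹ * pts Q (fun α => (Ps L 0 (4 * k) α ^ 2 * Ps L (4 * k) (J - 4 * k) α) *
        Ps L (J + 4 * k) J α) := by
    refine (pts_mono hpt).trans (le_of_eq ?_)
    rw [pts_add, pts_mul_left, pts_mul_left]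
  have h2 : pts Q (fun α => Ps L (4 * k) J α * Ps L (J + 4 * k) J α) ≤ 4 * Q * T := by
    have h := pts_cs (Q := Q) (Ps L (4 * k) J) (Ps L (J + 4 * k) J)
    have h0 : 0 ≤ pts Q (fun x => Ps L (4 * k) J x ^ 2) := pts_nonneg fun _ => sq_nonneg _
    have h0' : 0 ≤ pts Q (fun x => Ps L (J + 4 * k) J x ^ 2) := pts_nonneg fun _ => sq_nonneg _
    have h3 : (pts Q (fun x => Ps L (4 * k) J x * Ps L (J + 4 * k) J x)) ^ 2 ≤ (4 * Q * T) ^ 2 := by
      refine h.trans ?_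
      rw [sq (4 * (Q : ℝ) * T)]
      exact mul_le_mul hA' hB' h0' (by positivity)
    exact le_of_abs_le (abs_le_of_sq_le_sq h3 (by positivity))
  have h3 : pts Q (fun α => (Ps L 0 (4 * k) α ^ 2 * Ps L (4 * k) (J - 4 * k) α) *
      Ps L (J + 4 * k) J α) ≤ 24 * Q * T * lam ^ 2 := by
    have h := pts_cs (Q := Q) (fun α => Ps L 0 (4 * k) α ^ 2 * Ps L (4 * k) (J - 4 * k) α)
      (Ps L (J + 4 * k) J)
    have e : (fun α => (Ps L 0 (4 * k) α ^ 2 * Ps L (4 * k) (J - 4 * k) α) ^ 2) =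
        (fun α => Ps L 0 (4 * k) α ^ 4 * Ps L (4 * k) (J - 4 * k) α ^ 2) := by
      funext α; ring
    simp only [e] at h
    have h0' : 0 ≤ pts Q (fun x => Ps L (J + 4 * k) J x ^ 2) := pts_nonneg fun _ => sq_nonneg _
    have e2 : ((67 : ℝ) / 100) ^ (4 * k) = lam ^ 4 := by
      rw [hlam, ← pow_mul]; ring_nf
    rw [e2] at hT1'
    refine le_of_abs_le (abs_le_of_sq_le_sq (h.trans ?_) (by positivity))
    calc pts Q (fun α => Ps L 0 (4 * k) α ^ 4 * Ps L (4 * k) (J - 4 * k) α ^ 2) *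
          pts Q (fun x => Ps L (J + 4 * k) J x ^ 2)
        ≤ (144 * Q * lam ^ 4) * (4 * Q * T) := mul_le_mul hT1' hB' h0' (by positivity)
      _ = 576 * Q ^ 2 * lam ^ 4 * T := by ring
      _ ≤ 576 * Q ^ 2 * lam ^ 4 * T ^ 2 := by
          have : T ≤ T ^ 2 := by nlinarith
          gcongr
      _ = _ := by ring
  calc pts Q (Ps L 0 L) ≤ lam * (4 * Q * T) + lam⁻¹ * (24 * Q * T * lam ^ 2) := by
        refine h1.trans ?_
        gcongr
    _ = 28 * Q * T * lam := by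
        field_simp
        ring

end Pool.Agent.H476R2.Pal
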