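import Mathlib
import Pool.Agent.H476R2.Pal.T3

set_option autoImplicit false

namespace Pool.Agent.H476R2.Pal

open Finset Pool.Agent.Helper112

lemma prod_le_mean (n : ℕ) (hn : 0 < n) (x : ℕ → ℝ) (hx : ∀ i, 0 ≤ x i) :
    ∏ i ∈ range n, x i ≤ ∑ i ∈ range n, (1 / (n : ℝ)) * x i ^ n := by
  have hn0 : (n : ℝ) ≠ 0 := by exact_mod_cast hn.ne'
  have h := Real.geom_mean_le_arith_mean_weighted (range n) (fun _ => 1 / (n : ℝ)) (fun i => x i ^ n)
    (fun _ _ => by positivity) (by simp [hn0]) (fun i _ => pow_nonneg (hx i) n)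
  refine le_trans (le_of_eq ?_) h
  apply prod_congr rfl
  intro i _
  rw [one_div, Real.pow_rpow_inv_natCast (hx i) hn.ne']

lemma Ps_blocks (L J n : ℕ) (α : ℝ) : Ps L 1 (n * J) α = ∏ i ∈ range n, Ps L (1 + i * J) J α := by
  induction n with
  | zero => simp [Ps_zero]
  | succ n ih => rw [Nat.succ_mul, Ps_add, ih, prod_range_succ]

theorem mid_of {L J Q : ℕ} (hL : 1 + 20 * J ≤ L)
    (h20 : ∀ A, 1 ≤ A → A + J ≤ L → pts Q (fun α => Ps L A J α ^ 20) ≤ 3000 * Q * (98 / 100) ^ J) :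
    pts Q (Ps L 0 L) ≤ 3000 * Q * (98 / 100) ^ J := by
  have hpt : ∀ α, Ps L 0 L α ≤ ∑ i ∈ range 20, (1 / ((20 : ℕ) : ℝ)) * Ps L (1 + i * J) J α ^ 20 := by
    intro α
    refine (Ps_le_block L 1 (20 * J) L hL α).trans ?_
    rw [Ps_blocks]
    exact prod_le_mean 20 (by norm_num) (fun i => Ps L (1 + i * J) J α) (fun i => Ps_nonneg _ _ _ _)
  refine (pts_mono hpt).trans ?_
  rw [pts_sum]
  calc ∑ i ∈ range 20, pts Q (fun α => (1 / ((20 : ℕ) : ℝ)) * Ps L (1 + i * J) J α ^ 20)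
      ≤ ∑ i ∈ range 20, (1 / ((20 : ℕ) : ℝ)) * (3000 * Q * (98 / 100) ^ J) := by
        apply sum_le_sum
        intro i hi
        rw [mem_range] at hi
        rw [pts_mul_left]
        apply mul_le_mul_of_nonneg_left _ (by positivity)
        apply h20 (1 + i * J) (by omega)
        have : i * J + J ≤ 20 * J := by nlinarith
        omega
    _ = _ := by
        rw [sum_const, card_range]
        simp only [nsmul_eq_mul]
        push_cast
        ring

end Pool.Agent.H476R2.Pal
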