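import Mathlib
import Pool.Agent.H476R2.Pal.T3
import Pool.Agent.H476R2.Pal.T5
import Pool.Agent.H535R2.PalT1
import Pool.Agent.H898R2.PalT2
import Pool.Agent.H831R2.PalT4
import Pool.Agent.H287R2.PalT6
import Pool.Agent.H760R2.PalT7
import Pool.Agent.H276R2.PalT8

set_option autoImplicit false

namespace Pool.Agent.H476R2.Pal

open Finset Filter Topology Pool.Agent.Helper112

theorem big (L k J Q : ℕ) (T : ℝ)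
    (hT : ∀ n : ℕ, 1 ≤ n → n ≤ 10 ^ (2 * L + 1) → (n.divisors.card : ℝ) ≤ T)
    (hk : 4 * k ≤ J) (hJ : 1 ≤ J) (hkJ : 4 * k + 2 * J ≤ L) (h1 : Q ≤ 10 ^ J) (h2 : 10 ^ J ≤ 10 * Q) :
    pts Q (Ps L 0 L) ≤ 28 * Q * T * (67 / 100) ^ k := by
  have hT1 : 1 ≤ T := by
    have := hT 1 le_rfl (Nat.one_le_pow _ _ (by norm_num))
    simpa using this
  exact big_of hT1 (by positivity) hk hkJ
    (Pool.Agent.H535R2.Pal.T1 L (4 * k) J Q hk hJ (by omega) h1 h2)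
    (Pool.Agent.H898R2.PalT2.T2 L (4 * k) J Q T (by omega) h1 hT)
    (Pool.Agent.H898R2.PalT2.T2 L (J + 4 * k) J Q T (by omega) h1 hT)

theorem mid (L J Q : ℕ) (hL : 1 + 20 * J ≤ L) (hQ : 1 ≤ Q) (h1 : Q ^ 2 ≤ 10 ^ J)
    (h2 : 10 ^ J ≤ 10 * Q ^ 2) :
    pts Q (Ps L 0 L) ≤ 3000 * Q * (98 / 100) ^ J :=
  mid_of hL fun A hA hAJ => Pool.Agent.H831R2.PalT4.T20 L A J Q hA hAJ hQ h1 h2

theorem U_sum (ε : ℝ) (hε : 0 < ε) (A : ℕ) : ∀ᶠ L : ℕ in atTop,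
    ∑ q ∈ (Icc 2 ⌊(10 : ℝ) ^ ((1 / 2 - ε) * L)⌋₊).filter (fun q => q.Coprime 10),
      (q.divisors.card : ℝ) ^ 2 * U L q / q ≤ 1 / (L : ℝ) ^ A :=
  Pool.Agent.H760R2.PalT7.U_sum_of Pool.Agent.H287R2.PalT6.point mid big ε hε A

/-- Bombieri-Vinogradov for the palindromes with leading digit `1`, at level `X^{1/2-ε}` -/
theorem BV (ε : ℝ) (hε : 0 < ε) (A : ℕ) : ∀ᶠ L : ℕ in atTop, ∀ h : ℕ → ℕ,
    ∑ q ∈ (Icc 1 ⌊(10 : ℝ) ^ ((1 / 2 - ε) * L)⌋₊).filter (fun q => q.Coprime 10),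
      (q.divisors.card : ℝ) ^ 2 * |cnt L q (h q) - 10 ^ L / q| ≤ 10 ^ L / (L : ℝ) ^ A :=
  Pool.Agent.H276R2.PalT8.BV_of U_sum ε hε A

end Pool.Agent.H476R2.Pal
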