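import Mathlib
import Pool.Agent.H476R2.Pal.Defs

/-!
# The positive definite majorant `Gf` of `ph`

`ph β = |∑_{m<10} e(mβ)|/10` is the absolute value of the Dirichlet kernel.  `Gf` is a trigonometric
polynomial with nonnegative coefficients `gw`, total mass `1` and mean value `2508/10000`, with `ph ≤ Gf`.
-/

set_option autoImplicit false

namespace Pool.Agent.H476R2.Pal

open Finset Pool.Agent.Helper112

/-- coefficients (times `10000`) of the majorant; `gwN s` belongs to the frequency `s - 8` -/
def gwN : Fin 17 → ℕ :=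
  ![43, 124, 215, 320, 435, 586, 806, 1217, 2508, 1217, 806, 586, 435, 320, 215, 124, 43]

/-- coefficients of the majorant; `gw s` belongs to the frequency `s - 8` -/
noncomputable def gw (s : Fin 17) : ℝ := (gwN s : ℝ) / 10000

/-- the majorant -/
noncomputable def Gf (x : ℝ) : ℝ := ∑ s : Fin 17, gw s * Real.cos (2 * Real.pi * (((s : ℕ) : ℝ) - 8) * x)

lemma gw_nonneg (s : Fin 17) : 0 ≤ gw s := by
  unfold gw
  positivity

lemma gw_sum : ∑ s : Fin 17, gw s = 1 := by
  unfold gw
  rw [← sum_div, ← Nat.cast_sum, show ∑ s : Fin 17, gwN s = 10000 by decide]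
  norm_num

end Pool.Agent.H476R2.Pal
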