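import Mathlib
import Pool.Agent.H476R2.Pal.GDefs
import Pool.Agent.H476R2.Pal.Q1a

/-!
# The inequality `ph ≤ Gf`
-/

set_option autoImplicit false
set_option maxHeartbeats 4000000

namespace Pool.Agent.H476R2.Pal

open Finset Pool.Agent.Helper112

lemma ee_pair (y : ℝ) : ee y + ee (-y) = 2 * (Real.cos (2 * Real.pi * y) : ℂ) := by
  unfold ee
  have h1 : Complex.exp (2 * Real.pi * (y : ℂ) * Complex.I) =
      Complex.exp (((2 * Real.pi * y : ℝ) : ℂ) * Complex.I) := by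
    congr 1; push_cast; ring
  have h2 : Complex.exp (2 * Real.pi * ((-y : ℝ) : ℂ) * Complex.I) =
      Complex.exp (-((2 * Real.pi * y : ℝ) : ℂ) * Complex.I) := by
    congr 1; push_cast; ring
  rw [Complex.ofReal_cos, Complex.cos, h1, h2]
  ring

/-- `ph` as a sum of cosines -/
lemma ph_eq (x : ℝ) : ph x = |2 * (Real.cos (Real.pi * x) + Real.cos (3 * (Real.pi * x)) +
    Real.cos (5 * (Real.pi * x)) + Real.cos (7 * (Real.pi * x)) + Real.cos (9 * (Real.pi * x)))| / 10 := by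
  unfold ph
  congr 1
  have h1 : ∑ m ∈ range 10, ee (m * x) = ee (9 / 2 * x) * ((2 * (Real.cos (Real.pi * x) +
      Real.cos (3 * (Real.pi * x)) + Real.cos (5 * (Real.pi * x)) + Real.cos (7 * (Real.pi * x)) +
      Real.cos (9 * (Real.pi * x))) : ℝ) : ℂ) := by
    have e : ∀ m : ℕ, ee (m * x) = ee (9 / 2 * x) * ee ((m - 9 / 2) * x) := by
      intro m
      rw [← ls_ee_add]
      congr 1
      ring
    have p0 := ee_pair (9 / 2 * x)
    have p1 := ee_pair (7 / 2 * x)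
    have p2 := ee_pair (5 / 2 * x)
    have p3 := ee_pair (3 / 2 * x)
    have p4 := ee_pair (1 / 2 * x)
    rw [show 2 * Real.pi * (9 / 2 * x) = 9 * (Real.pi * x) by ring] at p0
    rw [show 2 * Real.pi * (7 / 2 * x) = 7 * (Real.pi * x) by ring] at p1
    rw [show 2 * Real.pi * (5 / 2 * x) = 5 * (Real.pi * x) by ring] at p2
    rw [show 2 * Real.pi * (3 / 2 * x) = 3 * (Real.pi * x) by ring] at p3
    rw [show 2 * Real.pi * (1 / 2 * x) = Real.pi * x by ring] at p4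
    have s : ∑ m ∈ range 10, ee (m * x) = ee (9 / 2 * x) *
        ((ee (9 / 2 * x) + ee (-(9 / 2 * x))) + (ee (7 / 2 * x) + ee (-(7 / 2 * x))) +
        (ee (5 / 2 * x) + ee (-(5 / 2 * x))) + (ee (3 / 2 * x) + ee (-(3 / 2 * x))) +
        (ee (1 / 2 * x) + ee (-(1 / 2 * x)))) := by
      simp only [sum_range_succ, sum_range_zero, zero_add]
      rw [e 0, e 1, e 2, e 3, e 4, e 5, e 6, e 7, e 8, e 9]
      rw [show ((((0 : ℕ) : ℝ) - 9 / 2) * x) = -(9 / 2 * x) by push_cast; ring,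
        show ((((1 : ℕ) : ℝ) - 9 / 2) * x) = -(7 / 2 * x) by push_cast; ring,
        show ((((2 : ℕ) : ℝ) - 9 / 2) * x) = -(5 / 2 * x) by push_cast; ring,
        show ((((3 : ℕ) : ℝ) - 9 / 2) * x) = -(3 / 2 * x) by push_cast; ring,
        show ((((4 : ℕ) : ℝ) - 9 / 2) * x) = -(1 / 2 * x) by push_cast; ring,
        show ((((5 : ℕ) : ℝ) - 9 / 2) * x) = (1 / 2 * x) by push_cast; ring,
        show ((((6 : ℕ) : ℝ) - 9 / 2) * x) = (3 / 2 * x) by push_cast; ring,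
        show ((((7 : ℕ) : ℝ) - 9 / 2) * x) = (5 / 2 * x) by push_cast; ring,
        show ((((8 : ℕ) : ℝ) - 9 / 2) * x) = (7 / 2 * x) by push_cast; ring,
        show ((((9 : ℕ) : ℝ) - 9 / 2) * x) = (9 / 2 * x) by push_cast; ring]
      ring
    rw [s, p0, p1, p2, p3, p4]
    push_cast
    ring
  rw [h1, norm_mul, ls_norm_ee, one_mul, Complex.norm_real, Real.norm_eq_abs]

lemma cos_rec (n : ℝ) (φ : ℝ) :
    Real.cos ((n + 1) * φ) = 2 * Real.cos φ * Real.cos (n * φ) - Real.cos ((n - 1) * φ) := by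
  have h1 : (n + 1) * φ = n * φ + φ := by ring
  have h2 : (n - 1) * φ = n * φ - φ := by ring
  rw [h1, h2, Real.cos_add, Real.cos_sub]
  ring

theorem main_ineq (φ : ℝ) :
    0 ≤ 2508 + 2 * (1217 * Real.cos (2 * φ) + 806 * Real.cos (4 * φ) + 586 * Real.cos (6 * φ) +
      435 * Real.cos (8 * φ) + 320 * Real.cos (10 * φ) + 215 * Real.cos (12 * φ) +
      124 * Real.cos (14 * φ) + 43 * Real.cos (16 * φ)) +
      2000 * (Real.cos φ + Real.cos (3 * φ) + Real.cos (5 * φ) + Real.cos (7 * φ) + Real.cos (9 * φ)) := by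
  obtain ⟨t, ht⟩ : ∃ t, Real.cos φ = t := ⟨_, rfl⟩
  have c0 : Real.cos (0 * φ) = 1 := by simp
  have c1 : Real.cos (1 * φ) = t := by simp [ht]
  have c2 : Real.cos (2 * φ) = 2 * t ^ 2 - 1 := by
    have := cos_rec 1 φ
    rw [show ((1 : ℝ) + 1) = 2 by norm_num, show ((1 : ℝ) - 1) = 0 by norm_num, c0, c1, ht] at this
    rw [this]; ring
  have c3 : Real.cos (3 * φ) = 4 * t ^ 3 - 3 * t := by
    have := cos_rec 2 φ
    rw [show ((2 : ℝ) + 1) = 3 by norm_num, show ((2 : ℝ) - 1) = 1 by norm_num, c2, c1, ht] at this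
    rw [this]; ring
  have c4 : Real.cos (4 * φ) = 8 * t ^ 4 - 8 * t ^ 2 + 1 := by
    have := cos_rec 3 φ
    rw [show ((3 : ℝ) + 1) = 4 by norm_num, show ((3 : ℝ) - 1) = 2 by norm_num, c3, c2, ht] at this
    rw [this]; ring
  have c5 : Real.cos (5 * φ) = 16 * t ^ 5 - 20 * t ^ 3 + 5 * t := by
    have := cos_rec 4 φ
    rw [show ((4 : ℝ) + 1) = 5 by norm_num, show ((4 : ℝ) - 1) = 3 by norm_num, c4, c3, ht] at this
    rw [this]; ring
  have c6 : Real.cos (6 * φ) = 32 * t ^ 6 - 48 * t ^ 4 + 18 * t ^ 2 - 1 := by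
    have := cos_rec 5 φ
    rw [show ((5 : ℝ) + 1) = 6 by norm_num, show ((5 : ℝ) - 1) = 4 by norm_num, c5, c4, ht] at this
    rw [this]; ring
  have c7 : Real.cos (7 * φ) = 64 * t ^ 7 - 112 * t ^ 5 + 56 * t ^ 3 - 7 * t := by
    have := cos_rec 6 φ
    rw [show ((6 : ℝ) + 1) = 7 by norm_num, show ((6 : ℝ) - 1) = 5 by norm_num, c6, c5, ht] at this
    rw [this]; ring
  have c8 : Real.cos (8 * φ) = 128 * t ^ 8 - 256 * t ^ 6 + 160 * t ^ 4 - 32 * t ^ 2 + 1 := by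
    have := cos_rec 7 φ
    rw [show ((7 : ℝ) + 1) = 8 by norm_num, show ((7 : ℝ) - 1) = 6 by norm_num, c7, c6, ht] at this
    rw [this]; ring
  have c9 : Real.cos (9 * φ) = 2 * t * Real.cos (8 * φ) - Real.cos (7 * φ) := by
    have := cos_rec 8 φ
    rw [show ((8 : ℝ) + 1) = 9 by norm_num, show ((8 : ℝ) - 1) = 7 by norm_num, ht] at this
    exact this
  have d2 : ∀ a b : ℝ, b = 2 * a → Real.cos b = 2 * Real.cos a ^ 2 - 1 := by
    intro a b h
    rw [h, Real.cos_two_mul]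
  have c10 : Real.cos (10 * φ) = 2 * Real.cos (5 * φ) ^ 2 - 1 := d2 _ _ (by ring)
  have c12 : Real.cos (12 * φ) = 2 * Real.cos (6 * φ) ^ 2 - 1 := d2 _ _ (by ring)
  have c14 : Real.cos (14 * φ) = 2 * Real.cos (7 * φ) ^ 2 - 1 := d2 _ _ (by ring)
  have c16 : Real.cos (16 * φ) = 2 * Real.cos (8 * φ) ^ 2 - 1 := d2 _ _ (by ring)
  have hm := qp_nonneg t (by rw [← ht]; exact Real.neg_one_le_cos φ) (by rw [← ht]; exact Real.cos_le_one φ)
  have h1 : 0 ≤ 1 + t := by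
    have := Real.neg_one_le_cos φ
    rw [ht] at this
    linarith
  have h2 : 0 ≤ (1 + t) * qp t := mul_nonneg h1 hm
  refine h2.trans (le_of_eq ?_)
  rw [c16, c14, c12, c10, c9, c8, c7, c6, c5, c4, c3, c2, ht]
  unfold qp
  ring

lemma Gf_eq (x : ℝ) : 10000 * Gf x = 2508 + 2 * (1217 * Real.cos (2 * (Real.pi * x)) +
      806 * Real.cos (4 * (Real.pi * x)) + 586 * Real.cos (6 * (Real.pi * x)) +
      435 * Real.cos (8 * (Real.pi * x)) + 320 * Real.cos (10 * (Real.pi * x)) +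
      215 * Real.cos (12 * (Real.pi * x)) +
      124 * Real.cos (14 * (Real.pi * x)) + 43 * Real.cos (16 * (Real.pi * x))) := by
  have hc : ∀ (s : Fin 17), gw s * Real.cos (2 * Real.pi * (((s : ℕ) : ℝ) - 8) * x) =
      (gwN s : ℝ) * Real.cos ((2 * ((s : ℕ) : ℝ) - 16) * (Real.pi * x)) / 10000 := by
    intro s
    unfold gw
    rw [show 2 * Real.pi * (((s : ℕ) : ℝ) - 8) * x = (2 * ((s : ℕ) : ℝ) - 16) * (Real.pi * x) by ring]
    ring
  unfold Gf
  rw [sum_congr rfl (fun s _ => hc s), ← sum_div, mul_div_cancel₀ _ (by norm_num : (10000 : ℝ) ≠ 0)]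
  obtain ⟨y, hy⟩ : ∃ y, Real.pi * x = y := ⟨_, rfl⟩
  rw [hy]
  have hF : ∑ s : Fin 17, (gwN s : ℝ) * Real.cos ((2 * ((s : ℕ) : ℝ) - 16) * y) =
      ∑ s ∈ range 17, ((if h : s < 17 then gwN ⟨s, h⟩ else 0 : ℕ) : ℝ) *
        Real.cos ((2 * (s : ℝ) - 16) * y) := by
    rw [← Fin.sum_univ_eq_sum_range
      (fun s => ((if h : s < 17 then gwN ⟨s, h⟩ else 0 : ℕ) : ℝ) * Real.cos ((2 * (s : ℝ) - 16) * y)) 17]
    apply sum_congr rfl
    intro s _
    simp
  rw [hF]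
  simp only [sum_range_succ, sum_range_zero, zero_add]
  have n0 : Real.cos ((2 * ((0 : ℕ) : ℝ) - 16) * y) = Real.cos (16 * y) := by
    rw [← Real.cos_neg]; congr 1; push_cast; ring
  have n1 : Real.cos ((2 * ((1 : ℕ) : ℝ) - 16) * y) = Real.cos (14 * y) := by
    rw [← Real.cos_neg]; congr 1; push_cast; ring
  have n2 : Real.cos ((2 * ((2 : ℕ) : ℝ) - 16) * y) = Real.cos (12 * y) := by
    rw [← Real.cos_neg]; congr 1; push_cast; ring
  have n3 : Real.cos ((2 * ((3 : ℕ) : ℝ) - 16) * y) = Real.cos (10 * y) := by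
    rw [← Real.cos_neg]; congr 1; push_cast; ring
  have n4 : Real.cos ((2 * ((4 : ℕ) : ℝ) - 16) * y) = Real.cos (8 * y) := by
    rw [← Real.cos_neg]; congr 1; push_cast; ring
  have n5 : Real.cos ((2 * ((5 : ℕ) : ℝ) - 16) * y) = Real.cos (6 * y) := by
    rw [← Real.cos_neg]; congr 1; push_cast; ring
  have n6 : Real.cos ((2 * ((6 : ℕ) : ℝ) - 16) * y) = Real.cos (4 * y) := by
    rw [← Real.cos_neg]; congr 1; push_cast; ring
  have n7 : Real.cos ((2 * ((7 : ℕ) : ℝ) - 16) * y) = Real.cos (2 * y) := by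
    rw [← Real.cos_neg]; congr 1; push_cast; ring
  have n8 : Real.cos ((2 * ((8 : ℕ) : ℝ) - 16) * y) = 1 := by
    rw [show (2 * ((8 : ℕ) : ℝ) - 16) * y = 0 by push_cast; ring, Real.cos_zero]
  have n9 : Real.cos ((2 * ((9 : ℕ) : ℝ) - 16) * y) = Real.cos (2 * y) := by
    congr 1; push_cast; ring
  have n10 : Real.cos ((2 * ((10 : ℕ) : ℝ) - 16) * y) = Real.cos (4 * y) := by
    congr 1; push_cast; ring
  have n11 : Real.cos ((2 * ((11 : ℕ) : ℝ) - 16) * y) = Real.cos (6 * y) := by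
    congr 1; push_cast; ring
  have n12 : Real.cos ((2 * ((12 : ℕ) : ℝ) - 16) * y) = Real.cos (8 * y) := by
    congr 1; push_cast; ring
  have n13 : Real.cos ((2 * ((13 : ℕ) : ℝ) - 16) * y) = Real.cos (10 * y) := by
    congr 1; push_cast; ring
  have n14 : Real.cos ((2 * ((14 : ℕ) : ℝ) - 16) * y) = Real.cos (12 * y) := by
    congr 1; push_cast; ring
  have n15 : Real.cos ((2 * ((15 : ℕ) : ℝ) - 16) * y) = Real.cos (14 * y) := by
    congr 1; push_cast; ring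
  have n16 : Real.cos ((2 * ((16 : ℕ) : ℝ) - 16) * y) = Real.cos (16 * y) := by
    congr 1; push_cast; ring
  rw [n0, n1, n2, n3, n4, n5, n6, n7, n8, n9, n10, n11, n12, n13, n14, n15, n16]
  have g : ∀ s (h : s < 17), (if h : s < 17 then gwN ⟨s, h⟩ else 0) = gwN ⟨s, h⟩ := by
    intro s h; simp [h]
  rw [g 0 (by norm_num), g 1 (by norm_num), g 2 (by norm_num), g 3 (by norm_num), g 4 (by norm_num),
    g 5 (by norm_num), g 6 (by norm_num), g 7 (by norm_num), g 8 (by norm_num), g 9 (by norm_num),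
    g 10 (by norm_num), g 11 (by norm_num), g 12 (by norm_num), g 13 (by norm_num),
    g 14 (by norm_num), g 15 (by norm_num), g 16 (by norm_num)]
  have v0 : gwN ⟨0, by norm_num⟩ = 43 := rfl
  have v1 : gwN ⟨1, by norm_num⟩ = 124 := rfl
  have v2 : gwN ⟨2, by norm_num⟩ = 215 := rfl
  have v3 : gwN ⟨3, by norm_num⟩ = 320 := rfl
  have v4 : gwN ⟨4, by norm_num⟩ = 435 := rfl
  have v5 : gwN ⟨5, by norm_num⟩ = 586 := rfl
  have v6 : gwN ⟨6, by norm_num⟩ = 806 := rfl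
  have v7 : gwN ⟨7, by norm_num⟩ = 1217 := rfl
  have v8 : gwN ⟨8, by norm_num⟩ = 2508 := rfl
  have v9 : gwN ⟨9, by norm_num⟩ = 1217 := rfl
  have v10 : gwN ⟨10, by norm_num⟩ = 806 := rfl
  have v11 : gwN ⟨11, by norm_num⟩ = 586 := rfl
  have v12 : gwN ⟨12, by norm_num⟩ = 435 := rfl
  have v13 : gwN ⟨13, by norm_num⟩ = 320 := rfl
  have v14 : gwN ⟨14, by norm_num⟩ = 215 := rfl
  have v15 : gwN ⟨15, by norm_num⟩ = 124 := rfl
  have v16 : gwN ⟨16, by norm_num⟩ = 43 := rfl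
  rw [v0, v1, v2, v3, v4, v5, v6, v7, v8, v9, v10, v11, v12, v13, v14, v15, v16]
  push_cast
  ring

/-- Q1 -/
theorem ph_le_Gf (x : ℝ) : ph x ≤ Gf x := by
  obtain ⟨y, hy⟩ : ∃ y, Real.pi * x = y := ⟨_, rfl⟩
  have h1 := main_ineq y
  have h2 := main_ineq (y + Real.pi)
  have hG := Gf_eq x
  rw [hy] at hG
  have e : ∀ (n : ℕ), Real.cos ((2 * (n : ℝ)) * (y + Real.pi)) = Real.cos ((2 * (n : ℝ)) * y) := by
    intro n
    rw [show (2 * (n : ℝ)) * (y + Real.pi) = (2 * (n : ℝ)) * y + n * (2 * Real.pi) by ring,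
      Real.cos_add_nat_mul_two_pi]
  have o : ∀ (n : ℕ), Real.cos ((2 * (n : ℝ) + 1) * (y + Real.pi)) = -Real.cos ((2 * (n : ℝ) + 1) * y) := by
    intro n
    rw [show (2 * (n : ℝ) + 1) * (y + Real.pi) = ((2 * (n : ℝ) + 1) * y + Real.pi) + n * (2 * Real.pi) by
      ring, Real.cos_add_nat_mul_two_pi, Real.cos_add_pi]
  have e1 := e 1
  have e2 := e 2
  have e3 := e 3
  have e4 := e 4
  have e5 := e 5
  have e6 := e 6
  have e7 := e 7
  have e8 := e 8
  have o0 := o 0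
  have o1 := o 1
  have o2 := o 2
  have o3 := o 3
  have o4 := o 4
  norm_num at e1 e2 e3 e4 e5 e6 e7 e8 o0 o1 o2 o3 o4
  rw [e1, e2, e3, e4, e5, e6, e7, e8, o1, o2, o3, o4] at h2
  rw [Real.cos_add_pi] at h2
  rw [ph_eq, hy]
  have h3 : |2 * (Real.cos y + Real.cos (3 * y) + Real.cos (5 * y) + Real.cos (7 * y) +
      Real.cos (9 * y))| ≤ 10 * Gf x := by
    rw [abs_le]
    constructor <;> linarith
  linarith

end Pool.Agent.H476R2.Pal
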