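import Mathlib
import Pool.Agent.H476R2.Pal.T3
import Pool.Agent.H476R2.Pal.Q1
import Pool.Agent.H535R2.PalT1

/-!
# Splitting of the product over digits into blocks, and the large range
-/

set_option autoImplicit false

namespace Pool.Agent.H476R2.Pal

open Finset Pool.Agent.Helper112

lemma Gf_nonneg (x : ℝ) : 0 ≤ Gf x := (ph_nonneg x).trans (ph_le_Gf x)

/-- Q3: pointwise splitting -/
theorem split (L J k K : ℕ) (lam : ℝ) (h0 : 0 < lam) (_h1 : lam ≤ 1) (hJ : J ≤ k * K) (hJL : J ≤ L)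
    (α : ℝ) :
    Ps L 0 L α ≤ (∑ i ∈ range k, lam * ∏ c ∈ (range L).filter (fun c => ¬ (c < J ∧ c / K = i)),
      Gf (fr L c * α)) + (lam ^ (3 * k))⁻¹ * Ps L 0 J α ^ 4 := by
  have hP : Ps L 0 L α = ∏ c ∈ range L, ph (fr L c * α) := by
    unfold Ps; simp only [zero_add]
  have hPJ : Ps L 0 J α = ∏ c ∈ range J, ph (fr L c * α) := by
    unfold Ps; simp only [zero_add]
  set x : ℕ → ℝ := fun i => ∏ c ∈ (range L).filter (fun c => c < J ∧ c / K = i), ph (fr L c * α) with hx
  have hx0 : ∀ i, 0 ≤ x i := fun i => prod_nonneg fun _ _ => ph_nonneg _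
  have hnn : ∀ i ∈ range k, 0 ≤ lam * ∏ c ∈ (range L).filter (fun c => ¬ (c < J ∧ c / K = i)),
      Gf (fr L c * α) := fun i _ => mul_nonneg h0.le (prod_nonneg fun _ _ => Gf_nonneg _)
  have hlast : 0 ≤ (lam ^ (3 * k))⁻¹ * Ps L 0 J α ^ 4 := by
    have := Ps_nonneg L 0 J α
    positivity
  by_cases hc : ∃ i ∈ range k, x i ≤ lam
  · obtain ⟨i, hi, hxi⟩ := hc
    have e1 : Ps L 0 L α = x i * ∏ c ∈ (range L).filter (fun c => ¬ (c < J ∧ c / K = i)),
        ph (fr L c * α) := by
      rw [hP, hx]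
      exact (prod_filter_mul_prod_filter_not (range L) (fun c => c < J ∧ c / K = i) _).symm
    have e2 : Ps L 0 L α ≤ lam * ∏ c ∈ (range L).filter (fun c => ¬ (c < J ∧ c / K = i)),
        Gf (fr L c * α) := by
      rw [e1]
      apply mul_le_mul hxi _ (prod_nonneg fun _ _ => ph_nonneg _) h0.le
      exact prod_le_prod (fun _ _ => ph_nonneg _) (fun _ _ => ph_le_Gf _)
    have e3 := single_le_sum hnn hi
    linarith
  · push Not at hc
    have e1 : Ps L 0 J α = ∏ i ∈ range k, x i := by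
      rw [hPJ, hx]
      have hmaps : ∀ c ∈ range J, c / K ∈ range k := by
        intro c hc
        rw [mem_range] at hc ⊢
        exact Nat.div_lt_of_lt_mul (by rw [mul_comm]; omega)
      rw [← prod_fiberwise_of_maps_to hmaps]
      apply prod_congr rfl
      intro i _
      apply prod_congr _ (fun _ _ => rfl)
      ext c
      simp only [mem_filter, mem_range]
      constructor
      · rintro ⟨h1, h2⟩
        exact ⟨by omega, h1, h2⟩
      · rintro ⟨_, h1, h2⟩
        exact ⟨h1, h2⟩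
    have e2 : lam ^ k ≤ Ps L 0 J α := by
      rw [e1]
      calc lam ^ k = ∏ i ∈ range k, lam := by simp
        _ ≤ ∏ i ∈ range k, x i := prod_le_prod (fun _ _ => h0.le) (fun i hi => (hc i hi).le)
    have e3 : Ps L 0 L α ≤ Ps L 0 J α := Ps_le_block L 0 J L (by omega) α
    set y := Ps L 0 J α with hy
    have hlk : 0 < lam ^ k := by positivity
    have hy0 : 0 < y := hlk.trans_le e2
    have e4 : y ≤ (lam ^ (3 * k))⁻¹ * y ^ 4 := by
      have e5 : lam ^ (3 * k) ≤ y ^ 3 := by
        rw [mul_comm 3 k, pow_mul]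
        exact pow_le_pow_left₀ hlk.le e2 3
      rw [inv_mul_eq_div, le_div_iff₀ (by positivity)]
      calc y * lam ^ (3 * k) ≤ y * y ^ 3 := by gcongr
        _ = y ^ 4 := by ring
    have e6 := sum_nonneg hnn
    linarith

lemma card_block (L J K i : ℕ) (hK : 0 < K) :
    L - K ≤ ((range L).filter (fun c => ¬ (c < J ∧ c / K = i))).card := by
  have h1 : ((range L).filter (fun c => c < J ∧ c / K = i)).card ≤ K := by
    calc ((range L).filter (fun c => c < J ∧ c / K = i)).card ≤ (Ico (i * K) (i * K + K)).card := by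
          apply card_le_card
          intro c hc
          rw [mem_filter] at hc
          rw [mem_Ico]
          have h2 := Nat.div_add_mod c K
          have h3 := Nat.mod_lt c hK
          rw [hc.2.2] at h2
          have h4 : i * K = K * i := mul_comm _ _
          constructor
          · omega
          · omega
      _ = K := by simp
  have h2 := card_filter_add_card_filter_not (s := range L) (fun c => c < J ∧ c / K = i)
  rw [card_range] at h2
  omega

/-- Q3: the large range -/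
theorem big2_of (L k K J Q : ℕ) (T lam : ℝ) (h0 : 0 < lam) (h1 : lam ≤ 1)
    (hG : ∀ B : Finset ℕ, B ⊆ range L →
      apts Q (fun α => ∏ c ∈ B, Gf (fr L c * α)) ≤ 2 * Q * (Q * (2508 / 10000) ^ B.card + T))
    (hJ : 1 ≤ J) (hJk : J ≤ k * K) (hJL : J ≤ L) (h2 : Q ≤ 10 ^ J) (h3 : 10 ^ J ≤ 10 * Q) :
    pts Q (Ps L 0 L) ≤ 2 * k * lam * Q * (Q * (2508 / 10000) ^ (L - K) + T) +
      144 * Q * (67 / 100) ^ J / lam ^ (3 * k) := by
  have hK : 0 < K := by
    rcases Nat.eq_zero_or_pos K with h | h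
    · subst h; omega
    · exact h
  have e1 : pts Q (Ps L 0 L) ≤ ∑ i ∈ range k, lam * pts Q (fun α =>
      ∏ c ∈ (range L).filter (fun c => ¬ (c < J ∧ c / K = i)), Gf (fr L c * α)) +
      (lam ^ (3 * k))⁻¹ * pts Q (fun α => Ps L 0 J α ^ 4) := by
    refine (pts_mono (split L J k K lam h0 h1 hJk hJL)).trans (le_of_eq ?_)
    rw [pts_add, pts_sum, pts_mul_left]
    congr 1
    apply sum_congr rfl
    intro i _
    rw [pts_mul_left]
  have e2 : pts Q (fun α => Ps L 0 J α ^ 4) ≤ 144 * Q * (67 / 100) ^ J := by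
    have h := Pool.Agent.H535R2.Pal.T1 L J J Q le_rfl hJ hJL h2 h3
    have e : (fun α => Ps L 0 J α ^ 4 * Ps L J (J - J) α ^ 2) = (fun α => Ps L 0 J α ^ 4) := by
      funext α
      rw [Nat.sub_self, Ps_zero]
      ring
    rw [e] at h
    exact h
  have e3 : ∀ i ∈ range k, lam * pts Q (fun α =>
      ∏ c ∈ (range L).filter (fun c => ¬ (c < J ∧ c / K = i)), Gf (fr L c * α)) ≤
      lam * (2 * Q * (Q * (2508 / 10000) ^ (L - K) + T)) := by
    intro i _
    apply mul_le_mul_of_nonneg_left _ h0.le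
    refine (pts_le_apts (fun α => prod_nonneg fun _ _ => Gf_nonneg _)).trans
      ((hG _ (filter_subset _ _)).trans ?_)
    have h5 : (2508 / 10000 : ℝ) ^ ((range L).filter (fun c => ¬ (c < J ∧ c / K = i))).card ≤
        (2508 / 10000) ^ (L - K) :=
      pow_le_pow_of_le_one (by norm_num) (by norm_num) (card_block L J K i hK)
    gcongr
  calc pts Q (Ps L 0 L) ≤ ∑ i ∈ range k, lam * pts Q (fun α =>
      ∏ c ∈ (range L).filter (fun c => ¬ (c < J ∧ c / K = i)), Gf (fr L c * α)) +
      (lam ^ (3 * k))⁻¹ * pts Q (fun α => Ps L 0 J α ^ 4) := e1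
    _ ≤ ∑ i ∈ range k, lam * (2 * Q * (Q * (2508 / 10000) ^ (L - K) + T)) +
      (lam ^ (3 * k))⁻¹ * (144 * Q * (67 / 100) ^ J) := by
        apply add_le_add (sum_le_sum e3)
        exact mul_le_mul_of_nonneg_left e2 (by positivity)
    _ = _ := by
        rw [sum_const, card_range, nsmul_eq_mul]
        ring

end Pool.Agent.H476R2.Pal
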