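import Mathlib
import Pool.Agent.H476R2.Pal.BV
import Pool.Agent.H476R2.Pal.Q3
import Pool.Agent.H503R2.PalQ2
import Pool.Agent.H760R2.PalQ4
import Pool.Agent.H459R2.PalQ5
import Pool.Agent.H459R2.PalQ6
import Pool.Agent.H329R2.PalQ12
import Pool.Agent.H861R2.Pal.T11

/-! # Palindromes have level of distribution `X^(3/5)` -/

set_option autoImplicit false

namespace Pool.Agent.H476R2.Pal

open Finset Filter Topology Pool.Agent.Helper112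

theorem big2 (L k K J Q : ℕ) (T lam : ℝ) (h0 : 0 < lam) (h1 : lam ≤ 1)
    (hT : ∀ n : ℕ, 1 ≤ n → n ≤ 10 ^ (2 * L + 1) → (n.divisors.card : ℝ) ≤ T)
    (hJ : 1 ≤ J) (hJk : J ≤ k * K) (hJL : J ≤ L) (h2 : Q ≤ 10 ^ J) (h3 : 10 ^ J ≤ 10 * Q) :
    pts Q (Ps L 0 L) ≤ 2 * k * lam * Q * (Q * (2508 / 10000) ^ (L - K) + T) +
      144 * Q * (67 / 100) ^ J / lam ^ (3 * k) :=
  big2_of L k K J Q T lam h0 h1 (fun B hB => Pool.Agent.H503R2.PalQ2.G_apts L Q T B hB hT)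
    hJ hJk hJL h2 h3

theorem U_sum2 (A : ℕ) : ∀ᶠ L : ℕ in atTop,
    ∑ q ∈ (Icc 2 ⌊(10 : ℝ) ^ ((3 / 5 : ℝ) * L)⌋₊).filter (fun q => q.Coprime 10),
      (q.divisors.card : ℝ) ^ 2 * U L q / q ≤ 1 / (L : ℝ) ^ A :=
  Pool.Agent.H760R2.PalQ4.U_sum2_of Pool.Agent.H287R2.PalT6.point mid big2 A

/-- level of distribution `X^(3/5)` for palindromes with leading digit `1` -/
theorem BV2 (A : ℕ) : ∀ᶠ L : ℕ in atTop, ∀ h : ℕ → ℕ,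
    ∑ q ∈ (Icc 1 ⌊(10 : ℝ) ^ ((3 / 5 : ℝ) * L)⌋₊).filter (fun q => q.Coprime 10),
      (q.divisors.card : ℝ) ^ 2 * |cnt L q (h q) - 10 ^ L / q| ≤ 10 ^ L / (L : ℝ) ^ A :=
  Pool.Agent.H459R2.PalQ5.BV2_of U_sum2 A

/-- level of distribution `X^(3/5)` for all palindromes with `2L+1` digits -/
theorem BV2_all (A : ℕ) : ∀ᶠ L : ℕ in atTop, ∀ h : ℕ → ℕ,
    ∑ q ∈ (Icc 1 ⌊(10 : ℝ) ^ ((3 / 5 : ℝ) * L)⌋₊).filter (fun q => q.Coprime 10),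
      |(((range (10 ^ (2 * L + 1))).filter (fun n => 10 ^ (2 * L) ≤ n ∧
          (Nat.digits 10 n).reverse = Nat.digits 10 n ∧ n ≡ h q [MOD q])).card : ℝ)
          - 9 * 10 ^ L / q| ≤ 10 ^ L / (L : ℝ) ^ A :=
  Pool.Agent.H459R2.PalQ6.BV2_all_of BV2 A

theorem primes_upper2 (ε : ℝ) (hε : 0 < ε) : ∀ᶠ L : ℕ in atTop,
    (((range (10 ^ (2 * L + 1))).filter (fun n => 10 ^ (2 * L) ≤ n ∧
        (Nat.digits 10 n).reverse = Nat.digits 10 n ∧ n.Prime)).card : ℝ)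
      ≤ (20 / 3 + ε) * (5 * 10 ^ L / (L * Real.log 10)) :=
  Pool.Agent.H329R2.PalQ12.primes_upper2_of' BV2
    (fun L hL => Pool.Agent.H861R2.Pal.palin_eq L hL) ε hε

end Pool.Agent.H476R2.Pal
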