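import Mathlib
import Pool.Agent.H476R2.Pal.Defs
import Pool.Agent.H476R2.Pal.SDefs

/-! BLUEPRINT (statements only, with sorry; never import this in a hand-in). -/

set_option autoImplicit false

namespace Pool.Agent.H476R2.Pal.BP

open Finset Filter Topology Pool.Agent.Helper112 Pool.Agent.H476R2.Pal

/-- T1 (task T1, file T1.lean) -/
theorem T1 (L K J Q : ℕ) (hK : K ≤ J) (hJ : 1 ≤ J) (hJL : J ≤ L) (h1 : Q ≤ 10 ^ J)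
    (h2 : 10 ^ J ≤ 10 * Q) :
    pts Q (fun α => Ps L 0 K α ^ 4 * Ps L K (J - K) α ^ 2) ≤ 144 * Q * (67 / 100) ^ K := sorry

/-- T2 (file T2.lean) -/
theorem T2 (L A J Q : ℕ) (T : ℝ) (hA : A + J ≤ L) (h1 : Q ≤ 10 ^ J)
    (hT : ∀ n : ℕ, 1 ≤ n → n ≤ 10 ^ (2 * L + 1) → (n.divisors.card : ℝ) ≤ T) :
    apts Q (fun α => Ps L A J α ^ 2) ≤ 2 * Q + 2 * Q * T := sorry

/-- T3 (file T3.lean), from T1 and T2 -/
theorem big (L k J Q : ℕ) (T : ℝ)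
    (hT : ∀ n : ℕ, 1 ≤ n → n ≤ 10 ^ (2 * L + 1) → (n.divisors.card : ℝ) ≤ T)
    (hk : 4 * k ≤ J) (hJ : 1 ≤ J) (hkJ : 4 * k + 2 * J ≤ L) (h1 : Q ≤ 10 ^ J) (h2 : 10 ^ J ≤ 10 * Q) :
    pts Q (Ps L 0 L) ≤ 28 * Q * T * (67 / 100) ^ k := sorry

/-- T4 (file T4.lean): twentieth moment of an off-centre block -/
theorem T20 (L A J Q : ℕ) (hA : 1 ≤ A) (hAJ : A + J ≤ L) (hQ : 1 ≤ Q) (h1 : Q ^ 2 ≤ 10 ^ J)
    (h2 : 10 ^ J ≤ 10 * Q ^ 2) :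
    pts Q (fun α => Ps L A J α ^ 20) ≤ 3000 * Q * (98 / 100) ^ J := sorry

/-- T5 (file T5.lean), from T20 and AM-GM -/
theorem mid (L J Q : ℕ) (hL : 1 + 20 * J ≤ L) (hQ : 1 ≤ Q) (h1 : Q ^ 2 ≤ 10 ^ J)
    (h2 : 10 ^ J ≤ 10 * Q ^ 2) :
    pts Q (Ps L 0 L) ≤ 3000 * Q * (98 / 100) ^ J := sorry

/-- T6 (file T6.lean): pointwise bound -/
theorem point : ∃ κ : ℝ, 0 < κ ∧ κ < 1 ∧ ∀ q t a L : ℕ, 1 < q → q.Coprime 10 → a.Coprime q →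
    q < 10 ^ t → Ps L 0 L ((a : ℝ) / q) ≤ (1 - κ) ^ ((L - 1) / (2 * t + 2)) := sorry

/-- T7 (file T7.lean): summation, from `big`, `mid`, `point`, `divisor_bound` -/
theorem U_sum (ε : ℝ) (hε : 0 < ε) (A : ℕ) : ∀ᶠ L : ℕ in atTop,
    ∑ q ∈ (Icc 2 ⌊(10 : ℝ) ^ ((1 / 2 - ε) * L)⌋₊).filter (fun q => q.Coprime 10),
      (q.divisors.card : ℝ) ^ 2 * U L q / q ≤ 1 / (L : ℝ) ^ A := sorry

/-- T8a (file T8.lean): counting by exponential sums -/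
theorem cnt_bound (L q h : ℕ) (hL : 1 ≤ L) (hq : q.Coprime 10) :
    |cnt L q h - 10 ^ L / q| ≤ 10 ^ L / q * ∑ d ∈ q.divisors.filter (fun d => 1 < d), U L d := sorry

/-- T8b (file T8.lean), from T7, T8a -/
theorem BV (ε : ℝ) (hε : 0 < ε) (A : ℕ) : ∀ᶠ L : ℕ in atTop, ∀ h : ℕ → ℕ,
    ∑ q ∈ (Icc 1 ⌊(10 : ℝ) ^ ((1 / 2 - ε) * L)⌋₊).filter (fun q => q.Coprime 10),
      (q.divisors.card : ℝ) ^ 2 * |cnt L q (h q) - 10 ^ L / q| ≤ 10 ^ L / (L : ℝ) ^ A := sorry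

/-- T9a (file T9.lean): squares -/
theorem sq_block (L k J P : ℕ) (T : ℝ)
    (hT : ∀ n : ℕ, 1 ≤ n → n ≤ 10 ^ (2 * L + 1) → (n.divisors.card : ℝ) ≤ T)
    (hk : 4 * k ≤ J) (hJ : 1 ≤ J) (hkJ : 4 * k + 2 * J ≤ L) (h1 : 10 ^ J ≤ P) (h2 : P ≤ 10 * 10 ^ J) :
    ∑ m ∈ (Ico P (2 * P)).filter (fun m => m.Coprime 10), cnt L (m ^ 2) 0 ≤
      100 * 10 ^ L * T * (67 / 100) ^ k := sorry

open Classical in
/-- T9b (file T9.lean) -/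
theorem squares (ε : ℝ) (hε : 0 < ε) (A : ℕ) : ∀ᶠ L : ℕ in atTop,
    (((univ : Finset (Fin L → Fin 10)).filter (fun m => ∃ p : ℕ, p.Coprime 10 ∧
      (10 : ℝ) ^ ((L : ℝ) / 50) ≤ p ∧ (p : ℝ) ≤ (10 : ℝ) ^ ((1 / 2 - ε) * L) ∧ p ^ 2 ∣ pv L m)).card : ℝ)
      ≤ 10 ^ L / (L : ℝ) ^ A := sorry

/-- T10 (file T10.lean): `pv` gives palindromes -/
theorem pv_digits (L : ℕ) (hL : 1 ≤ L) (m : Fin L → Fin 10) :
    (Nat.digits 10 (pv L m)).reverse = Nat.digits 10 (pv L m) ∧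
      10 ^ (2 * L) < pv L m ∧ pv L m < 10 ^ (2 * L + 1) := sorry

theorem pv_inj (L : ℕ) (hL : 1 ≤ L) : Function.Injective (pv L) := sorry

theorem pv_coprime (L : ℕ) (hL : 1 ≤ L) (m : Fin L → Fin 10) : (pv L m).Coprime 10 := sorry

/-! ### sieve part (independent of palindromes) -/

/-- S1 (file S1.lean) Selberg's upper bound -/
theorem selberg {ι : Type} (S : Finset ι) (v : ι → ℕ) (X : ℝ) (hX : 0 ≤ X) (z d : ℕ)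
    (hd : d.Coprime (PZ z)) (hd0 : 0 < d) (ξ : ℝ) (hξ : 1 ≤ ξ) :
    sift S v d z ≤ X / d / GZ ξ z +
      ∑ l ∈ (PZ z).divisors.filter (fun l : ℕ => (l : ℝ) ≤ ξ ^ 2),
        (l.divisors.card : ℝ) ^ 2 * |rem S v X (d * l)| := sorry

/-- S2 (file S2.lean) Rankin's trick -/
theorem rankin : ∃ C : ℝ, 0 ≤ C ∧ ∀ z : ℕ, 2 ≤ z → ∀ ξ v : ℝ, 1 ≤ ξ → 0 ≤ v →
    (VZ z)⁻¹ * (1 - Real.exp (-v * (Real.log ξ / Real.log z) +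
      (Real.exp v - 1) * (1 + C / Real.log z))) ≤ GZ ξ z := sorry

/-- S3 (file S3.lean) -/
theorem G_log (z : ℕ) (ξ u : ℝ) (h1 : 1 ≤ u) (h2 : u < z) (h3 : u ≤ ξ) :
    2 / 5 * Real.log u ≤ GZ ξ z := sorry

/-- S4a (file S4.lean) Mertens, third theorem for the primes not dividing 10 -/
theorem V_lim : Tendsto (fun z : ℕ => VZ z * Real.log z) atTop
    (𝓝 (5 / 2 * Real.exp (-Real.eulerMascheroniConstant))) := sorry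

/-- S4b (file S4.lean) Mertens on an interval -/
theorem mertens_int (a b τ : ℝ) (ha : 0 < a) (hab : a < b) (hτ : 0 < τ) :
    Tendsto (fun D : ℝ => ∑ p ∈ (range ⌈D ^ b⌉₊).filter (fun p : ℕ => p.Prime ∧ ¬ p ∣ 10 ∧ D ^ a ≤ p),
      (1 - Real.log p / (τ * Real.log D)) / p) atTop (𝓝 (Real.log (b / a) - (b - a) / τ)) := sorry

/-- S4c telescoping -/
theorem V_tele (a b : ℕ) (hab : a ≤ b) :
    ∑ p ∈ (range b).filter (fun p => p.Prime ∧ ¬ p ∣ 10 ∧ a ≤ p), VZ p / p = VZ a - VZ b := sorry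


/-- S5 (file S5.lean) lower bound sieve (Buchstab + Selberg + Rankin) -/
theorem lower : ∃ D₀ : ℝ, ∀ D : ℝ, D₀ ≤ D → ∀ (ι : Type) (S : Finset ι) (v : ι → ℕ) (X : ℝ), 0 ≤ X →
    99 / 100 * X * VZ ⌈D ^ (1 / 12 : ℝ)⌉₊ - Rem S v X D ≤ sift S v 1 ⌈D ^ (1 / 12 : ℝ)⌉₊ := sorry

/-- S6 (file S6.lean) weighted upper bound -/
theorem upper : ∃ D₀ : ℝ, ∀ D : ℝ, D₀ ≤ D → ∀ (ι : Type) (S : Finset ι) (v : ι → ℕ) (X : ℝ), 0 ≤ X →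
    ∑ p ∈ (range ⌈D ^ (995 / 1000 : ℝ)⌉₊).filter (fun p : ℕ => p.Prime ∧ ¬ p ∣ 10 ∧ D ^ (1 / 12 : ℝ) ≤ p),
      (1 - Real.log p / (995 / 1000 * Real.log D)) * sift S v p ⌈D ^ (1 / 12 : ℝ)⌉₊ ≤
      19 / 10 * X * VZ ⌈D ^ (1 / 12 : ℝ)⌉₊ + Rem S v X D := sorry

/-- F (file Final.lean): at least `c 10^L / L` palindromes with `2L+1` digits have at most five prime
factors (counted with multiplicity), all of them larger than `10^(L/25)` -/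
theorem final : ∃ c : ℝ, 0 < c ∧ ∀ᶠ L : ℕ in atTop,
    c * 10 ^ L / L ≤ (((range (10 ^ (2 * L + 1))).filter (fun n => 10 ^ (2 * L) ≤ n ∧
      (Nat.digits 10 n).reverse = Nat.digits 10 n ∧ n.primeFactorsList.length ≤ 5 ∧
      ∀ p ∈ n.primeFactorsList, (10 : ℝ) ^ ((L : ℝ) / 25) < p)).card : ℝ) := sorry

end Pool.Agent.H476R2.Pal.BP
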