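import Mathlib
import Pool.Agent.H476R2.Pal.Defs
import Pool.Agent.H476R2.Pal.SDefs

/-! BLUEPRINT 2 (statements only, with sorry; never import this in a hand-in). -/

set_option autoImplicit false

namespace Pool.Agent.H476R2.Pal.BP

open Finset Filter Topology Pool.Agent.Helper112 Pool.Agent.H476R2.Pal

/-- palindromes with exactly `2 L + 1` decimal digits -/
def palin (L : ℕ) : Finset ℕ :=
  (range (10 ^ (2 * L + 1))).filter (fun n => 10 ^ (2 * L) ≤ n ∧
    (Nat.digits 10 n).reverse = Nat.digits 10 n)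

/-- palindrome with leading digit `l` -/
def pvl (l L : ℕ) (m : Fin L → Fin 10) : ℕ :=
  l * (10 ^ (2 * L) + 1) + ∑ c : Fin L, (m c : ℕ) * fr L c

/-- T11 (file T11.lean) all palindromes with `2L+1` digits -/
theorem palin_eq (L : ℕ) (hL : 1 ≤ L) :
    palin L = ((Icc 1 9) ×ˢ (univ : Finset (Fin L → Fin 10))).image (fun x => pvl x.1 L x.2) := sorry

theorem pvl_inj (L : ℕ) (hL : 1 ≤ L) :
    Set.InjOn (fun x : ℕ × (Fin L → Fin 10) => pvl x.1 L x.2) {x | x.1 ≤ 9} := sorry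

/-- T12 (file T12.lean), from `BV` and T11: Bombieri-Vinogradov for all palindromes -/
theorem BV_all (ε : ℝ) (hε : 0 < ε) (A : ℕ) : ∀ᶠ L : ℕ in atTop, ∀ h : ℕ → ℕ,
    ∑ q ∈ (Icc 1 ⌊(10 : ℝ) ^ ((1 / 2 - ε) * L)⌋₊).filter (fun q => q.Coprime 10),
      |(((palin L).filter (fun n => n ≡ h q [MOD q])).card : ℝ) - 9 * 10 ^ L / q| ≤
        10 ^ L / (L : ℝ) ^ A := sorry

/-- T13 (file T13.lean), from `BV`, T11, `selberg`, `G_log`: upper bound for palindromic primes,
eight times the expected number `5 * 10^L / (L log 10)` -/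
theorem primes_upper (ε : ℝ) (hε : 0 < ε) : ∀ᶠ L : ℕ in atTop,
    (((palin L).filter Nat.Prime).card : ℝ) ≤ (8 + ε) * (5 * 10 ^ L / (L * Real.log 10)) := sorry

end Pool.Agent.H476R2.Pal.BP
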