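import Mathlib
import Pool.Agent.H476R2.Pal.Defs
import Pool.Agent.H476R2.Pal.SDefs
import Pool.Agent.H476R2.Pal.GDefs

/-! BLUEPRINT 3 (statements only, with sorry; never import this in a hand-in).
Level of distribution `X^(3/5)` for palindromes (beyond the `X^(1/2)` of the large sieve) and palindromes
with at most FOUR prime factors. -/

set_option autoImplicit false

namespace Pool.Agent.H476R2.Pal.BP

open Finset Filter Topology Pool.Agent.Helper112 Pool.Agent.H476R2.Pal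

/-- Q1: the majorant -/
theorem ph_le_Gf (x : ℝ) : ph x ≤ Gf x := sorry

/-- Q2: exact formula for complete sums of products of the majorant -/
theorem G_core (L M : ℕ) (hM : 0 < M) (B : Finset ℕ) :
    ∑ a ∈ range M, ∏ c ∈ B, Gf (fr L c * ((a : ℝ) / M)) =
      M * ∑ s ∈ Fintype.piFinset (fun _ : B => (univ : Finset (Fin 17))),
        if (M : ℤ) ∣ ∑ c : B, (((s c : Fin 17) : ℕ) - 8 : ℤ) * fr L c then ∏ c : B, gw (s c) else 0 := sorry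

/-- Q2: divisor bound -/
theorem G_apts (L Q : ℕ) (T : ℝ) (B : Finset ℕ) (hB : B ⊆ range L)
    (hT : ∀ n : ℕ, 1 ≤ n → n ≤ 10 ^ (2 * L + 1) → (n.divisors.card : ℝ) ≤ T) :
    apts Q (fun α => ∏ c ∈ B, Gf (fr L c * α)) ≤ 2 * Q * (Q * (2508 / 10000) ^ B.card + T) := sorry

/-- Q2: divisor bound for square moduli -/
theorem G_sq (L P : ℕ) (T : ℝ) (B : Finset ℕ) (hB : B ⊆ range L) (hP : 1 ≤ P)
    (hT : ∀ n : ℕ, 1 ≤ n → n ≤ 10 ^ (2 * L + 1) → (n.divisors.card : ℝ) ≤ T) :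
    ∑ m ∈ (Ico P (2 * P)).filter (fun m => m.Coprime 10),
      (∑ a ∈ range (m ^ 2), ∏ c ∈ B, Gf (fr L c * ((a : ℝ) / ((m ^ 2 : ℕ) : ℝ)))) / ((m ^ 2 : ℕ) : ℝ)
      ≤ P * (2508 / 10000) ^ B.card + T := sorry

/-- Q3: pointwise splitting -/
theorem split (L J k K : ℕ) (lam : ℝ) (h0 : 0 < lam) (h1 : lam ≤ 1) (hJ : J ≤ k * K) (hJL : J ≤ L)
    (α : ℝ) :
    Ps L 0 L α ≤ (∑ i ∈ range k, lam * ∏ c ∈ (range L).filter (fun c => ¬ (c < J ∧ c / K = i)),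
      Gf (fr L c * α)) + (lam ^ (3 * k))⁻¹ * Ps L 0 J α ^ 4 := sorry

/-- Q3: the large range, from `split`, `G_apts` and `T1` (with `K = J`) -/
theorem big2 (L k K J Q : ℕ) (T lam : ℝ) (h0 : 0 < lam) (h1 : lam ≤ 1)
    (hT : ∀ n : ℕ, 1 ≤ n → n ≤ 10 ^ (2 * L + 1) → (n.divisors.card : ℝ) ≤ T)
    (hJ : 1 ≤ J) (hJk : J ≤ k * K) (hJL : J ≤ L) (h2 : Q ≤ 10 ^ J) (h3 : 10 ^ J ≤ 10 * Q) :
    pts Q (Ps L 0 L) ≤ 2 * k * lam * Q * (Q * (2508 / 10000) ^ (L - K) + T) +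
      144 * Q * (67 / 100) ^ J / lam ^ (3 * k) := sorry

/-- Q4: summation (from `point`, `mid`, `big2`) -/
theorem U_sum2 (A : ℕ) : ∀ᶠ L : ℕ in atTop,
    ∑ q ∈ (Icc 2 ⌊(10 : ℝ) ^ ((3 / 5 : ℝ) * L)⌋₊).filter (fun q => q.Coprime 10),
      (q.divisors.card : ℝ) ^ 2 * U L q / q ≤ 1 / (L : ℝ) ^ A := sorry

/-- Q5: Bombieri-Vinogradov for palindromes with leading digit 1, level `X^(3/5)` (from `U_sum2`) -/
theorem BV2 (A : ℕ) : ∀ᶠ L : ℕ in atTop, ∀ h : ℕ → ℕ,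
    ∑ q ∈ (Icc 1 ⌊(10 : ℝ) ^ ((3 / 5 : ℝ) * L)⌋₊).filter (fun q => q.Coprime 10),
      (q.divisors.card : ℝ) ^ 2 * |cnt L q (h q) - 10 ^ L / q| ≤ 10 ^ L / (L : ℝ) ^ A := sorry

/-- Q6: the same for all palindromes with `2L+1` digits (from `BV2`) -/
theorem BV2_all (A : ℕ) : ∀ᶠ L : ℕ in atTop, ∀ h : ℕ → ℕ,
    ∑ q ∈ (Icc 1 ⌊(10 : ℝ) ^ ((3 / 5 : ℝ) * L)⌋₊).filter (fun q => q.Coprime 10),
      |(((range (10 ^ (2 * L + 1))).filter (fun n => 10 ^ (2 * L) ≤ n ∧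
          (Nat.digits 10 n).reverse = Nat.digits 10 n ∧ n ≡ h q [MOD q])).card : ℝ)
          - 9 * 10 ^ L / q| ≤ 10 ^ L / (L : ℝ) ^ A := sorry

/-- Q7a: squares, one dyadic block -/
theorem sq_block2 (L k K J P : ℕ) (T lam : ℝ) (h0 : 0 < lam) (h1 : lam ≤ 1)
    (hT : ∀ n : ℕ, 1 ≤ n → n ≤ 10 ^ (2 * L + 1) → (n.divisors.card : ℝ) ≤ T)
    (hJ : 1 ≤ J) (hJk : J ≤ k * K) (hJL : J ≤ L) (h2 : 10 ^ J ≤ P) (h3 : P ≤ 10 * 10 ^ J) :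
    ∑ m ∈ (Ico P (2 * P)).filter (fun m => m.Coprime 10), cnt L (m ^ 2) 0 ≤
      10 ^ L * (k * lam * (P * (2508 / 10000) ^ (L - K) + T) + 10 * (67 / 100) ^ J / lam ^ (3 * k)) := sorry

open Classical in
/-- Q7b: squares -/
theorem squares2 (A : ℕ) : ∀ᶠ L : ℕ in atTop,
    (((univ : Finset (Fin L → Fin 10)).filter (fun m => ∃ p : ℕ, p.Coprime 10 ∧
      (10 : ℝ) ^ ((L : ℝ) / 50) ≤ p ∧ (p : ℝ) ≤ (10 : ℝ) ^ ((3 / 5 : ℝ) * L) ∧ p ^ 2 ∣ pv L m)).card : ℝ)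
      ≤ 10 ^ L / (L : ℝ) ^ A := sorry

/-- Q8: lower bound for Selberg's function beyond `z` -/
theorem G_H : ∃ C : ℝ, 0 ≤ C ∧ ∀ (z : ℕ) (ξ : ℝ), 2 ≤ z → (z : ℝ) ≤ ξ →
    2 / 5 * (Real.log ξ * (2 - Real.log (Real.log ξ / Real.log z)) - Real.log z)
      - C * (Real.log ξ / Real.log z) ≤ GZ ξ z := sorry

/-- Q9: lower bound sieve at `D^(1/8)` -/
theorem lower2 : ∃ D₀ : ℝ, ∀ D : ℝ, D₀ ≤ D → ∀ (ι : Type) (S : Finset ι) (v : ι → ℕ) (X : ℝ), 0 ≤ X →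
    95 / 100 * X * VZ ⌈D ^ (1 / 8 : ℝ)⌉₊ - Rem S v X D ≤ sift S v 1 ⌈D ^ (1 / 8 : ℝ)⌉₊ := sorry

/-- Q10: weighted upper bound at `D^(1/8)` -/
theorem upper2 : ∃ D₀ : ℝ, ∀ D : ℝ, D₀ ≤ D → ∀ (ι : Type) (S : Finset ι) (v : ι → ℕ) (X : ℝ), 0 ≤ X →
    ∑ p ∈ (range ⌈D ^ (999 / 1000 : ℝ)⌉₊).filter (fun p : ℕ => p.Prime ∧ ¬ p ∣ 10 ∧ D ^ (1 / 8 : ℝ) ≤ p),
      (1 - Real.log p / (999 / 1000 * Real.log D)) * sift S v p ⌈D ^ (1 / 8 : ℝ)⌉₊ ≤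
      3 / 2 * X * VZ ⌈D ^ (1 / 8 : ℝ)⌉₊ + Rem S v X D := sorry

/-- Q11: at least `c 10^L / L` palindromes with `2L+1` digits have at most FOUR prime
factors (counted with multiplicity), all of them larger than `10^(L/14)` -/
theorem final2 : ∃ c : ℝ, 0 < c ∧ ∀ᶠ L : ℕ in atTop,
    c * 10 ^ L / L ≤ (((range (10 ^ (2 * L + 1))).filter (fun n => 10 ^ (2 * L) ≤ n ∧
      (Nat.digits 10 n).reverse = Nat.digits 10 n ∧ n.primeFactorsList.length ≤ 4 ∧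
      ∀ p ∈ n.primeFactorsList, (10 : ℝ) ^ ((L : ℝ) / 14) < p)).card : ℝ) := sorry

/-- Q12: upper bound for palindromic primes, `20/3` times the expected number (from `BV2`) -/
theorem primes_upper2 (ε : ℝ) (hε : 0 < ε) : ∀ᶠ L : ℕ in atTop,
    (((range (10 ^ (2 * L + 1))).filter (fun n => 10 ^ (2 * L) ≤ n ∧
        (Nat.digits 10 n).reverse = Nat.digits 10 n ∧ n.Prime)).card : ℝ)
      ≤ (20 / 3 + ε) * (5 * 10 ^ L / (L * Real.log 10)) := sorry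

end Pool.Agent.H476R2.Pal.BP
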