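import Mathlib
import Pool.Agent.H476R2.Pal.Defs
import Pool.Agent.H476R2.Pal.SDefs

set_option autoImplicit false

namespace Pool.Agent.H476R2.Pal

open Finset Filter Topology Pool.Agent.Helper112

/-- Richert's inequality -/
theorem omega_bound {n : ℕ} (hn : 0 < n) {ly : ℝ} (hly : 0 < ly)
    (hsq : ∀ p : ℕ, p.Prime → p ∣ n → Real.log p < ly → ¬ p ^ 2 ∣ n) :
    (n.primeFactorsList.length : ℝ) ≤
      ∑ p ∈ n.primeFactors.filter (fun p : ℕ => Real.log p < ly), (1 - Real.log p / ly) + Real.log n / ly := by
  have h1 : (n.primeFactorsList.length : ℝ) = ∑ p ∈ n.primeFactors, (n.factorization p : ℝ) := by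
    have h := ArithmeticFunction.cardFactors_eq_sum_factorization (n := n)
    rw [ArithmeticFunction.cardFactors_apply] at h
    rw [h, Finsupp.sum]
    push_cast
    rfl
  have h2 : Real.log n = ∑ p ∈ n.primeFactors, (n.factorization p : ℝ) * Real.log p := by
    have h := Real.log_nat_eq_sum_factorization n
    rw [h, Finsupp.sum]
    rfl
  rw [h1, h2, sum_div, sum_filter, ← sum_add_distrib]
  apply sum_le_sum
  intro p hp
  have hpp := Nat.prime_of_mem_primeFactors hp
  have hpn := Nat.dvd_of_mem_primeFactors hp
  have hlp : 0 < Real.log p := Real.log_pos (by exact_mod_cast hpp.one_lt)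
  split_ifs with h
  · have h3 : n.factorization p = 1 := by
      have h4 : ¬ 2 ≤ n.factorization p := by
        intro h5
        exact hsq p hpp hpn h ((hpp.pow_dvd_iff_le_factorization hn.ne').2 h5)
      have h6 : 1 ≤ n.factorization p := (hpp.dvd_iff_one_le_factorization hn.ne').1 hpn
      omega
    rw [h3]
    push_cast
    rw [one_mul]
    linarith
  · push Not at h
    rw [zero_add, le_div_iff₀ hly]
    exact mul_le_mul_of_nonneg_left h (by positivity)

/-- weights on the sifted set -/
theorem weight_sum {ι : Type} (S : Finset ι) (v : ι → ℕ) (z : ℕ) (P : Finset ℕ) (c : ℕ → ℝ) (lam : ℝ) :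
    ∑ i ∈ S.filter (fun i => (v i).Coprime (PZ z)), (1 - lam * ∑ p ∈ P.filter (fun p => p ∣ v i), c p) =
      sift S v 1 z - lam * ∑ p ∈ P, c p * sift S v p z := by
  rw [sum_sub_distrib]
  congr 1
  · rw [sum_const, nsmul_eq_mul, mul_one]
    unfold sift
    congr 2
    ext i
    simp
  · rw [← mul_sum]
    congr 1
    simp only [sum_filter (s := P)]
    rw [sum_comm]
    apply sum_congr rfl
    intro p _
    rw [← sum_filter, sum_const, nsmul_eq_mul, mul_comm, filter_filter]
    unfold sift
    congr 3
    ext i
    simp [and_comm]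

/-- a positive weighted sum gives many elements of positive weight -/
theorem count_pos {ι : Type} [DecidableEq ι] (T B : Finset ι) (w : ι → ℝ) (hw : ∀ i ∈ T, w i ≤ 1) :
    ∑ i ∈ T, w i - B.card ≤ ((T.filter (fun i => 0 < w i)) \ B).card := by
  have h1 : ∑ i ∈ T, w i ≤ ((T.filter (fun i => 0 < w i)).card : ℝ) := by
    calc ∑ i ∈ T, w i ≤ ∑ i ∈ T, (if 0 < w i then (1 : ℝ) else 0) := by
          apply sum_le_sum
          intro i hi
          split_ifs with h
          · exact hw i hi
          · exact not_lt.1 h
      _ = _ := by rw [← sum_filter, sum_const, nsmul_eq_mul, mul_one]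
  have h2 : ((T.filter (fun i => 0 < w i)).card : ℝ) ≤
      ((T.filter (fun i => 0 < w i)) \ B).card + B.card := by
    have h3 := card_le_card_sdiff_add_card (t := B) (s := T.filter (fun i => 0 < w i))
    exact_mod_cast h3
  linarith

end Pool.Agent.H476R2.Pal
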