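import Mathlib
import Pool.Agent.H476R2.Pal.F1

set_option autoImplicit false

namespace Pool.Agent.H476R2.Pal

open Finset Filter Topology Pool.Agent.Helper112

lemma prime_dvd_PZ {z p : ℕ} (hp : p.Prime) (hz : p < z) (h10 : ¬ p ∣ 10) : p ∣ PZ z := by
  unfold PZ
  exact dvd_prod_of_mem (fun p => p) (by rw [mem_filter, mem_range]; exact ⟨hz, hp, h10⟩)

lemma prime_not_dvd_ten {n p : ℕ} (hn : n.Coprime 10) (hp : p.Prime) (hpn : p ∣ n) : ¬ p ∣ 10 := by
  intro h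
  have := Nat.dvd_gcd hpn h
  rw [hn] at this
  exact hp.one_lt.ne' (Nat.dvd_one.1 this)

/-- the level -/
noncomputable def DD (L : ℕ) : ℝ := (10 : ℝ) ^ ((1 / 2 - 1 / 400 : ℝ) * L)

lemma DD_pos (L : ℕ) : 0 < DD L := by unfold DD; positivity

lemma log_DD (L : ℕ) : Real.log (DD L) = (1 / 2 - 1 / 400 : ℝ) * L * Real.log 10 := by
  unfold DD; rw [Real.log_rpow (by norm_num)]

/-- good `m` give palindromes with at most five prime factors -/
theorem good {L n : ℕ} (hL : 250 ≤ L) (h1 : 10 ^ (2 * L) < n) (h2 : n < 10 ^ (2 * L + 1))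
    (hc : n.Coprime 10) (hs : n.Coprime (PZ ⌈DD L ^ (1 / 12 : ℝ)⌉₊))
    (hsq : ∀ p : ℕ, p.Coprime 10 → (10 : ℝ) ^ ((L : ℝ) / 50) ≤ p → (p : ℝ) ≤ DD L → ¬ p ^ 2 ∣ n)
    (hw : 0 < 1 - 20 / 39 * ∑ p ∈ ((range ⌈DD L ^ (995 / 1000 : ℝ)⌉₊).filter
      (fun p : ℕ => p.Prime ∧ ¬ p ∣ 10 ∧ DD L ^ (1 / 12 : ℝ) ≤ p)).filter (fun p => p ∣ n),
        (1 - Real.log p / (995 / 1000 * Real.log (DD L)))) :
    n.primeFactorsList.length ≤ 5 ∧ ∀ p ∈ n.primeFactorsList, (10 : ℝ) ^ ((L : ℝ) / 25) < p := by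
  have hL' : (250 : ℝ) ≤ L := by exact_mod_cast hL
  have hL0 : (0 : ℝ) < L := by linarith
  have hn0 : n ≠ 0 := by rintro rfl; simp at h1
  have hnpos : 0 < n := Nat.pos_of_ne_zero hn0
  have hl10 : 0 < Real.log 10 := Real.log_pos (by norm_num)
  have hD0 := DD_pos L
  have hlD := log_DD L
  have hlD0 : 0 < Real.log (DD L) := by rw [hlD]; positivity
  -- all prime factors are at least D^{1/12}
  have hbig : ∀ p : ℕ, p.Prime → p ∣ n → DD L ^ (1 / 12 : ℝ) ≤ p := by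
    intro p hp hpn
    by_contra hlt
    push Not at hlt
    have h3 : p < ⌈DD L ^ (1 / 12 : ℝ)⌉₊ := Nat.lt_ceil.2 hlt
    have h4 := prime_dvd_PZ hp h3 (prime_not_dvd_ten hc hp hpn)
    have h5 := Nat.dvd_gcd hpn h4
    rw [hs] at h5
    exact hp.one_lt.ne' (Nat.dvd_one.1 h5)
  have hz12 : DD L ^ (1 / 12 : ℝ) = (10 : ℝ) ^ ((1 / 2 - 1 / 400 : ℝ) / 12 * L) := by
    unfold DD
    rw [← Real.rpow_mul (by norm_num)]
    congr 1; ring
  have h25 : (10 : ℝ) ^ ((L : ℝ) / 25) < DD L ^ (1 / 12 : ℝ) := by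
    rw [hz12]
    apply Real.rpow_lt_rpow_of_exponent_lt (by norm_num)
    nlinarith
  have h50 : (10 : ℝ) ^ ((L : ℝ) / 50) ≤ (10 : ℝ) ^ ((L : ℝ) / 25) := by
    apply Real.rpow_le_rpow_of_exponent_le (by norm_num)
    apply div_le_div_of_nonneg_left hL0.le (by norm_num) (by norm_num)
  refine ⟨?_, ?_⟩
  swap
  · intro p hp
    have hpp := Nat.prime_of_mem_primeFactorsList hp
    have hpn := Nat.dvd_of_mem_primeFactorsList hp
    exact h25.trans_le (hbig p hpp hpn)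
  set ly := 995 / 1000 * Real.log (DD L) with hly
  have hly0 : 0 < ly := by positivity
  have hlogy : Real.log (DD L ^ (995 / 1000 : ℝ)) = ly := by rw [Real.log_rpow hD0]
  have hiff : ∀ p : ℕ, p.Prime → (Real.log p < ly ↔ (p : ℝ) < DD L ^ (995 / 1000 : ℝ)) := by
    intro p hp
    rw [← hlogy]
    exact Real.log_lt_log_iff (by exact_mod_cast hp.pos) (by positivity)
  have hD1 : 1 ≤ DD L := by
    unfold DD
    apply Real.one_le_rpow (by norm_num)
    positivity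
  have hyD : DD L ^ (995 / 1000 : ℝ) ≤ DD L := by
    conv_rhs => rw [← Real.rpow_one (DD L)]
    exact Real.rpow_le_rpow_of_exponent_le hD1 (by norm_num)
  have hom := omega_bound hnpos hly0 (by
    intro p hp hpn hlt
    apply hsq p
    · rw [Nat.Prime.coprime_iff_not_dvd hp]
      exact prime_not_dvd_ten hc hp hpn
    · exact (h50.trans h25.le).trans (hbig p hp hpn)
    · exact (((hiff p hp).1 hlt).le).trans hyD)
  have hset : n.primeFactors.filter (fun p : ℕ => Real.log p < ly) =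
      ((range ⌈DD L ^ (995 / 1000 : ℝ)⌉₊).filter
      (fun p : ℕ => p.Prime ∧ ¬ p ∣ 10 ∧ DD L ^ (1 / 12 : ℝ) ≤ p)).filter (fun p => p ∣ n) := by
    ext p
    simp only [mem_filter, mem_range, Nat.mem_primeFactors]
    constructor
    · rintro ⟨⟨hp, hpn, _⟩, hlt⟩
      exact ⟨⟨Nat.lt_ceil.2 ((hiff p hp).1 hlt), hp, prime_not_dvd_ten hc hp hpn, hbig p hp hpn⟩, hpn⟩
    · rintro ⟨⟨hlt, hp, _, _⟩, hpn⟩
      exact ⟨⟨hp, hpn, hn0⟩, (hiff p hp).2 (Nat.lt_ceil.1 hlt)⟩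
  rw [hset] at hom
  have hlogn : Real.log n ≤ (2 * L + 1) * Real.log 10 := by
    have : (n : ℝ) ≤ (10 : ℝ) ^ (2 * L + 1) := by exact_mod_cast h2.le
    calc Real.log n ≤ Real.log ((10 : ℝ) ^ (2 * L + 1)) :=
          Real.log_le_log (by exact_mod_cast hnpos) this
      _ = _ := by rw [Real.log_pow]; push_cast; ring
  have hratio : Real.log n / ly ≤ 405 / 100 := by
    rw [div_le_iff₀ hly0, hly, hlD]
    refine hlogn.trans ?_
    have : (2 * (L : ℝ) + 1) ≤ 405 / 100 * (995 / 1000 * ((1 / 2 - 1 / 400) * L)) := by nlinarith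
    calc (2 * (L : ℝ) + 1) * Real.log 10 ≤
          405 / 100 * (995 / 1000 * ((1 / 2 - 1 / 400) * L)) * Real.log 10 :=
          mul_le_mul_of_nonneg_right this hl10.le
      _ = _ := by ring
  have hlt : (n.primeFactorsList.length : ℝ) < 6 := by
    have h7 : ∑ p ∈ ((range ⌈DD L ^ (995 / 1000 : ℝ)⌉₊).filter
      (fun p : ℕ => p.Prime ∧ ¬ p ∣ 10 ∧ DD L ^ (1 / 12 : ℝ) ≤ p)).filter (fun p => p ∣ n),
        (1 - Real.log p / ly) < 39 / 20 := by linarith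
    linarith
  have : n.primeFactorsList.length < 6 := by exact_mod_cast hlt
  omega

end Pool.Agent.H476R2.Pal
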