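import Mathlib
import Pool.Agent.H476R2.Pal.F2

set_option autoImplicit false

namespace Pool.Agent.H476R2.Pal

open Finset Filter Topology Pool.Agent.Helper112

lemma rem_eq (L q : ℕ) : rem (univ : Finset (Fin L → Fin 10)) (pv L) (10 ^ L) q = cnt L q 0 - 10 ^ L / q := by
  unfold rem cnt
  congr 3
  ext m
  simp [Nat.modEq_zero_iff_dvd]

lemma tendsto_z : Tendsto (fun L : ℕ => ⌈DD L ^ (1 / 12 : ℝ)⌉₊) atTop atTop := by
  have h1 : Tendsto (fun L : ℕ => (10 : ℝ) ^ ((1 / 2 - 1 / 400 : ℝ) / 12 * (L : ℝ))) atTop atTop := by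
    apply (tendsto_rpow_atTop_of_base_gt_one 10 (by norm_num)).comp
    exact (tendsto_natCast_atTop_atTop).const_mul_atTop (by norm_num)
  have h2 : Tendsto (fun L : ℕ => DD L ^ (1 / 12 : ℝ)) atTop atTop := by
    refine h1.congr fun L => ?_
    unfold DD
    rw [← Real.rpow_mul (by norm_num)]
    congr 1; ring
  exact tendsto_nat_ceil_atTop.comp h2

lemma tendsto_DD : Tendsto DD atTop atTop := by
  apply (tendsto_rpow_atTop_of_base_gt_one 10 (by norm_num)).comp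
  exact (tendsto_natCast_atTop_atTop).const_mul_atTop (by norm_num)

lemma logz_le {L : ℕ} (hL : 1 ≤ L) : Real.log (⌈DD L ^ (1 / 12 : ℝ)⌉₊ : ℝ) ≤ 3 * L := by
  have hL' : (1 : ℝ) ≤ L := by exact_mod_cast hL
  have hD1 : 1 ≤ DD L := by
    unfold DD
    apply Real.one_le_rpow (by norm_num)
    positivity
  have h0 : 1 ≤ DD L ^ (1 / 12 : ℝ) := Real.one_le_rpow hD1 (by norm_num)
  have h1 : (⌈DD L ^ (1 / 12 : ℝ)⌉₊ : ℝ) ≤ 2 * DD L ^ (1 / 12 : ℝ) := by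
    have := Nat.ceil_lt_add_one (show 0 ≤ DD L ^ (1 / 12 : ℝ) by linarith)
    linarith
  have h2 : (0 : ℝ) < (⌈DD L ^ (1 / 12 : ℝ)⌉₊ : ℝ) := by
    have := Nat.le_ceil (DD L ^ (1 / 12 : ℝ))
    linarith
  have h3 : Real.log 10 ≤ 3 := by
    have h4 : (10 : ℝ) ≤ Real.exp 3 := by
      have := Real.exp_one_gt_d9
      have e : Real.exp 3 = Real.exp 1 ^ 3 := by rw [← Real.exp_nat_mul]; norm_num
      rw [e]
      calc (10 : ℝ) ≤ 2.7 ^ 3 := by norm_num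
        _ ≤ _ := by gcongr; linarith
    calc Real.log 10 ≤ Real.log (Real.exp 3) := Real.log_le_log (by norm_num) h4
      _ = 3 := Real.log_exp 3
  have h5 : Real.log 2 ≤ 1 := by linarith [Real.log_two_lt_d9]
  calc Real.log (⌈DD L ^ (1 / 12 : ℝ)⌉₊ : ℝ) ≤ Real.log (2 * DD L ^ (1 / 12 : ℝ)) := Real.log_le_log h2 h1
    _ = Real.log 2 + 1 / 12 * ((1 / 2 - 1 / 400) * L * Real.log 10) := by
        rw [Real.log_mul (by norm_num) (by positivity), Real.log_rpow (DD_pos L), log_DD]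
    _ ≤ 1 + 1 / 12 * ((1 / 2 - 1 / 400) * L * 3) := by gcongr
    _ ≤ 3 * L := by nlinarith

open Classical in
theorem final_of
    (hlow : ∃ D₀ : ℝ, ∀ D : ℝ, D₀ ≤ D → ∀ (ι : Type) (S : Finset ι) (v : ι → ℕ) (X : ℝ), 0 ≤ X →
      99 / 100 * X * VZ ⌈D ^ (1 / 12 : ℝ)⌉₊ - Rem S v X D ≤ sift S v 1 ⌈D ^ (1 / 12 : ℝ)⌉₊)
    (hup : ∃ D₀ : ℝ, ∀ D : ℝ, D₀ ≤ D → ∀ (ι : Type) (S : Finset ι) (v : ι → ℕ) (X : ℝ), 0 ≤ X →
      ∑ p ∈ (range ⌈D ^ (995 / 1000 : ℝ)⌉₊).filter (fun p : ℕ => p.Prime ∧ ¬ p ∣ 10 ∧ D ^ (1 / 12 : ℝ) ≤ p),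
        (1 - Real.log p / (995 / 1000 * Real.log D)) * sift S v p ⌈D ^ (1 / 12 : ℝ)⌉₊ ≤
        19 / 10 * X * VZ ⌈D ^ (1 / 12 : ℝ)⌉₊ + Rem S v X D)
    (hBV : ∀ (ε : ℝ) (_ : 0 < ε) (A : ℕ), ∀ᶠ L : ℕ in atTop, ∀ h : ℕ → ℕ,
      ∑ q ∈ (Icc 1 ⌊(10 : ℝ) ^ ((1 / 2 - ε) * L)⌋₊).filter (fun q => q.Coprime 10),
        (q.divisors.card : ℝ) ^ 2 * |cnt L q (h q) - 10 ^ L / q| ≤ 10 ^ L / (L : ℝ) ^ A)
    (hsquares : ∀ (ε : ℝ) (_ : 0 < ε) (A : ℕ), ∀ᶠ L : ℕ in atTop,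
      (((univ : Finset (Fin L → Fin 10)).filter (fun m => ∃ p : ℕ, p.Coprime 10 ∧
        (10 : ℝ) ^ ((L : ℝ) / 50) ≤ p ∧ (p : ℝ) ≤ (10 : ℝ) ^ ((1 / 2 - ε) * L) ∧ p ^ 2 ∣ pv L m)).card : ℝ)
        ≤ 10 ^ L / (L : ℝ) ^ A)
    (hV : Tendsto (fun z : ℕ => VZ z * Real.log z) atTop
      (𝓝 (5 / 2 * Real.exp (-Real.eulerMascheroniConstant))))
    (hdig : ∀ (L : ℕ) (_ : 1 ≤ L) (m : Fin L → Fin 10),
      (Nat.digits 10 (pv L m)).reverse = Nat.digits 10 (pv L m) ∧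
      10 ^ (2 * L) < pv L m ∧ pv L m < 10 ^ (2 * L + 1))
    (hinj : ∀ (L : ℕ) (_ : 1 ≤ L), Function.Injective (pv L))
    (hcop : ∀ (L : ℕ) (_ : 1 ≤ L) (m : Fin L → Fin 10), (pv L m).Coprime 10) :
    ∃ c : ℝ, 0 < c ∧ ∀ᶠ L : ℕ in atTop,
    c * 10 ^ L / L ≤ (((range (10 ^ (2 * L + 1))).filter (fun n => 10 ^ (2 * L) ≤ n ∧
      (Nat.digits 10 n).reverse = Nat.digits 10 n ∧ n.primeFactorsList.length ≤ 5 ∧
      ∀ p ∈ n.primeFactorsList, (10 : ℝ) ^ ((L : ℝ) / 25) < p)).card : ℝ) := by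
  obtain ⟨D₁, hlow⟩ := hlow
  obtain ⟨D₂, hup⟩ := hup
  set K : ℝ := 5 / 2 * Real.exp (-Real.eulerMascheroniConstant) with hK
  have hK0 : 0 < K := by positivity
  refine ⟨K / 1200, by positivity, ?_⟩
  have e1 : ∀ᶠ L : ℕ in atTop, K / 2 < VZ ⌈DD L ^ (1 / 12 : ℝ)⌉₊ * Real.log (⌈DD L ^ (1 / 12 : ℝ)⌉₊ : ℝ) :=
    (hV.comp tendsto_z).eventually_const_lt (by linarith)
  have e2 : ∀ᶠ L : ℕ in atTop, max D₁ D₂ ≤ DD L := tendsto_DD.eventually_ge_atTop _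
  have e3 := hBV (1 / 400) (by norm_num) 3
  have e4 := hsquares (1 / 400) (by norm_num) 3
  have e5 : ∀ᶠ L : ℕ in atTop, (max 250 (5000 / K) : ℝ) ≤ L :=
    tendsto_natCast_atTop_atTop.eventually_ge_atTop _
  filter_upwards [e1, e2, e3, e4, e5] with L h1 h2 h3 h4 h5
  have hL250 : (250 : ℝ) ≤ L := (le_max_left _ _).trans h5
  have hLK : 5000 / K ≤ L := (le_max_right _ _).trans h5
  have hL : 250 ≤ L := by exact_mod_cast hL250
  have hL1 : 1 ≤ L := by omega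
  have hL0 : (0 : ℝ) < L := by linarith
  set z := ⌈DD L ^ (1 / 12 : ℝ)⌉₊ with hz
  have hlz := logz_le hL1
  rw [← hz] at hlz
  have hVpos : 0 < VZ z := by
    unfold VZ
    apply prod_pos
    intro p hp
    rw [mem_filter] at hp
    have : (1 : ℝ) < p := by exact_mod_cast hp.2.1.one_lt
    have : 1 / (p : ℝ) < 1 := by rw [div_lt_one (by linarith)]; exact this
    linarith
  have hVL : K / (6 * L) ≤ VZ z := by
    rw [div_le_iff₀ (by positivity)]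
    nlinarith
  set X : ℝ := 10 ^ L with hX
  have hX0 : 0 < X := by positivity
  have hlow' := hlow (DD L) ((le_max_left _ _).trans h2) (Fin L → Fin 10) univ (pv L) X hX0.le
  have hup' := hup (DD L) ((le_max_right _ _).trans h2) (Fin L → Fin 10) univ (pv L) X hX0.le
  rw [← hz] at hlow' hup'
  have hRem : Rem (univ : Finset (Fin L → Fin 10)) (pv L) X (DD L) ≤ X / (L : ℝ) ^ 3 := by
    have := h3 (fun _ => 0)
    unfold Rem
    simp only [hX, rem_eq]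
    exact this
  set P := (range ⌈DD L ^ (995 / 1000 : ℝ)⌉₊).filter
    (fun p : ℕ => p.Prime ∧ ¬ p ∣ 10 ∧ DD L ^ (1 / 12 : ℝ) ≤ p) with hP
  set c : ℕ → ℝ := fun p => 1 - Real.log p / (995 / 1000 * Real.log (DD L)) with hc
  set w : (Fin L → Fin 10) → ℝ := fun m => 1 - 20 / 39 * ∑ p ∈ P.filter (fun p => p ∣ pv L m), c p with hw
  have hws := weight_sum (univ : Finset (Fin L → Fin 10)) (pv L) z P c (20 / 39)
  have hlD0 : 0 < Real.log (DD L) := by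
    rw [log_DD]
    have : 0 < Real.log 10 := Real.log_pos (by norm_num)
    positivity
  have hcnn : ∀ p ∈ P, 0 ≤ c p := by
    intro p hp
    rw [hP, mem_filter, mem_range] at hp
    have h6 : (p : ℝ) < DD L ^ (995 / 1000 : ℝ) := Nat.lt_ceil.1 hp.1
    have h7 : Real.log p ≤ 995 / 1000 * Real.log (DD L) := by
      rw [← Real.log_rpow (DD_pos L)]
      exact Real.log_le_log (by exact_mod_cast hp.2.1.pos) h6.le
    simp only [hc]
    rw [sub_nonneg, div_le_one (by positivity)]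
    exact h7
  set T := (univ : Finset (Fin L → Fin 10)).filter (fun m => (pv L m).Coprime (PZ z)) with hT
  set B := (univ : Finset (Fin L → Fin 10)).filter (fun m => ∃ p : ℕ, p.Coprime 10 ∧
        (10 : ℝ) ^ ((L : ℝ) / 50) ≤ p ∧ (p : ℝ) ≤ (10 : ℝ) ^ ((1 / 2 - 1 / 400 : ℝ) * L) ∧ p ^ 2 ∣ pv L m) with hB
  have hcp := count_pos T B w (by
    intro m _
    have : 0 ≤ ∑ p ∈ P.filter (fun p => p ∣ pv L m), c p :=
      sum_nonneg fun p hp => hcnn p (mem_filter.1 hp).1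
    simp only [hw]
    linarith)
  have hsumT : ∑ m ∈ T, w m = sift (univ : Finset (Fin L → Fin 10)) (pv L) 1 z -
      20 / 39 * ∑ p ∈ P, c p * sift (univ : Finset (Fin L → Fin 10)) (pv L) p z := hws
  have hmain : X * VZ z / 100 ≤ ∑ m ∈ T, w m + 2 * (X / (L : ℝ) ^ 3) := by
    rw [hsumT]
    have h8 : 0 ≤ X / (L : ℝ) ^ 3 := by positivity
    have h9 : 0 < X * VZ z := by positivity
    have hup'' : ∑ p ∈ P, c p * sift (univ : Finset (Fin L → Fin 10)) (pv L) p z ≤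
        19 / 10 * X * VZ z + Rem (univ : Finset (Fin L → Fin 10)) (pv L) X (DD L) := hup'
    generalize X / (L : ℝ) ^ 3 = r at *
    generalize Rem (univ : Finset (Fin L → Fin 10)) (pv L) X (DD L) = R at *
    linarith
  -- the injection
  have hcard : ((T.filter (fun i => 0 < w i)) \ B).card ≤
      ((range (10 ^ (2 * L + 1))).filter (fun n => 10 ^ (2 * L) ≤ n ∧
      (Nat.digits 10 n).reverse = Nat.digits 10 n ∧ n.primeFactorsList.length ≤ 5 ∧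
      ∀ p ∈ n.primeFactorsList, (10 : ℝ) ^ ((L : ℝ) / 25) < p)).card := by
    apply card_le_card_of_injOn (pv L)
    · intro m hm
      rw [mem_coe, Finset.mem_sdiff, mem_filter, hT, mem_filter] at hm
      obtain ⟨⟨⟨_, hs⟩, hwm⟩, hmB⟩ := hm
      obtain ⟨hd1, hd2, hd3⟩ := hdig L hL1 m
      have hg := good hL hd2 hd3 (hcop L hL1 m) hs (by
        intro p hp1 hp2 hp3 hp4
        apply hmB
        rw [hB, mem_filter]
        exact ⟨mem_univ _, p, hp1, hp2, hp3, hp4⟩) hwm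
      rw [mem_coe, mem_filter, mem_range]
      exact ⟨hd3, hd2.le, hd1, hg.1, hg.2⟩
    · intro a _ b _ hab
      exact hinj L hL1 hab
  have hcard' : (((T.filter (fun i => 0 < w i)) \ B).card : ℝ) ≤
      (((range (10 ^ (2 * L + 1))).filter (fun n => 10 ^ (2 * L) ≤ n ∧
      (Nat.digits 10 n).reverse = Nat.digits 10 n ∧ n.primeFactorsList.length ≤ 5 ∧
      ∀ p ∈ n.primeFactorsList, (10 : ℝ) ^ ((L : ℝ) / 25) < p)).card : ℝ) := by exact_mod_cast hcard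
  refine le_trans ?_ (hcp.trans hcard')
  have hBc : (B.card : ℝ) ≤ X / (L : ℝ) ^ 3 := h4
  have h10 : X * (K / (6 * L)) / 100 ≤ X * VZ z / 100 := by gcongr
  have h11 : X / (L : ℝ) ^ 3 * 3 ≤ K * X / (1200 * L) := by
    rw [div_mul_eq_mul_div, div_le_div_iff₀ (by positivity) (by positivity)]
    have h12 : 5000 ≤ K * L := by rwa [div_le_iff₀ hK0, mul_comm] at hLK
    have h13 : 3600 ≤ K * L ^ 2 := by nlinarith
    calc X * 3 * (1200 * L) = X * L * 3600 := by ring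
      _ ≤ X * L * (K * L ^ 2) := by gcongr
      _ = _ := by ring
  have h14 : X * (K / (6 * L)) / 100 = K * X / (600 * L) := by
    field_simp; ring
  have h15 : K * X / (600 * L) = 2 * (K * X / (1200 * L)) := by
    field_simp; ring
  have h16 : K / 1200 * X / L = K * X / (1200 * L) := by
    field_simp
  rw [h16]
  linarith

end Pool.Agent.H476R2.Pal
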