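import Mathlib
import Pool.Agent.H476R2.Pal.F3

/-! # Palindromes with at most four prime factors: assembly -/

set_option autoImplicit false

namespace Pool.Agent.H476R2.Pal

open Finset Filter Topology Pool.Agent.Helper112

/-- the level -/
noncomputable def DE (L : ℕ) : ℝ := (10 : ℝ) ^ ((3 / 5 : ℝ) * L)

lemma DE_pos (L : ℕ) : 0 < DE L := by unfold DE; positivity

lemma log_DE (L : ℕ) : Real.log (DE L) = (3 / 5 : ℝ) * L * Real.log 10 := by
  unfold DE; rw [Real.log_rpow (by norm_num)]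

/-- good `m` give palindromes with at most four prime factors -/
theorem good4 {L n : ℕ} (hL : 1000 ≤ L) (h1 : 10 ^ (2 * L) < n) (h2 : n < 10 ^ (2 * L + 1))
    (hc : n.Coprime 10) (hs : n.Coprime (PZ ⌈DE L ^ (1 / 8 : ℝ)⌉₊))
    (hsq : ∀ p : ℕ, p.Coprime 10 → (10 : ℝ) ^ ((L : ℝ) / 50) ≤ p → (p : ℝ) ≤ DE L → ¬ p ^ 2 ∣ n)
    (hw : 0 < 1 - 50 / 83 * ∑ p ∈ ((range ⌈DE L ^ (999 / 1000 : ℝ)⌉₊).filter
      (fun p : ℕ => p.Prime ∧ ¬ p ∣ 10 ∧ DE L ^ (1 / 8 : ℝ) ≤ p)).filter (fun p => p ∣ n),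
        (1 - Real.log p / (999 / 1000 * Real.log (DE L)))) :
    n.primeFactorsList.length ≤ 4 ∧ ∀ p ∈ n.primeFactorsList, (10 : ℝ) ^ ((L : ℝ) / 14) < p := by
  have hL' : (1000 : ℝ) ≤ L := by exact_mod_cast hL
  have hL0 : (0 : ℝ) < L := by linarith
  have hn0 : n ≠ 0 := by rintro rfl; simp at h1
  have hnpos : 0 < n := Nat.pos_of_ne_zero hn0
  have hl10 : 0 < Real.log 10 := Real.log_pos (by norm_num)
  have hD0 := DE_pos L
  have hlD := log_DE L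
  have hlD0 : 0 < Real.log (DE L) := by rw [hlD]; positivity
  -- all prime factors are at least D^{1/8}
  have hbig : ∀ p : ℕ, p.Prime → p ∣ n → DE L ^ (1 / 8 : ℝ) ≤ p := by
    intro p hp hpn
    by_contra hlt
    push Not at hlt
    have h3 : p < ⌈DE L ^ (1 / 8 : ℝ)⌉₊ := Nat.lt_ceil.2 hlt
    have h4 := prime_dvd_PZ hp h3 (prime_not_dvd_ten hc hp hpn)
    have h5 := Nat.dvd_gcd hpn h4
    rw [hs] at h5
    exact hp.one_lt.ne' (Nat.dvd_one.1 h5)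
  have hz8 : DE L ^ (1 / 8 : ℝ) = (10 : ℝ) ^ ((3 / 5 : ℝ) / 8 * L) := by
    unfold DE
    rw [← Real.rpow_mul (by norm_num)]
    congr 1; ring
  have h14 : (10 : ℝ) ^ ((L : ℝ) / 14) < DE L ^ (1 / 8 : ℝ) := by
    rw [hz8]
    apply Real.rpow_lt_rpow_of_exponent_lt (by norm_num)
    nlinarith
  have h50 : (10 : ℝ) ^ ((L : ℝ) / 50) ≤ (10 : ℝ) ^ ((L : ℝ) / 14) := by
    apply Real.rpow_le_rpow_of_exponent_le (by norm_num)
    apply div_le_div_of_nonneg_left hL0.le (by norm_num) (by norm_num)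
  refine ⟨?_, ?_⟩
  swap
  · intro p hp
    have hpp := Nat.prime_of_mem_primeFactorsList hp
    have hpn := Nat.dvd_of_mem_primeFactorsList hp
    exact h14.trans_le (hbig p hpp hpn)
  set ly := 999 / 1000 * Real.log (DE L) with hly
  have hly0 : 0 < ly := by positivity
  have hlogy : Real.log (DE L ^ (999 / 1000 : ℝ)) = ly := by rw [Real.log_rpow hD0]
  have hiff : ∀ p : ℕ, p.Prime → (Real.log p < ly ↔ (p : ℝ) < DE L ^ (999 / 1000 : ℝ)) := by
    intro p hp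
    rw [← hlogy]
    exact Real.log_lt_log_iff (by exact_mod_cast hp.pos) (by positivity)
  have hD1 : 1 ≤ DE L := by
    unfold DE
    apply Real.one_le_rpow (by norm_num)
    positivity
  have hyD : DE L ^ (999 / 1000 : ℝ) ≤ DE L := by
    conv_rhs => rw [← Real.rpow_one (DE L)]
    exact Real.rpow_le_rpow_of_exponent_le hD1 (by norm_num)
  have hom := omega_bound hnpos hly0 (by
    intro p hp hpn hlt
    apply hsq p
    · rw [Nat.Prime.coprime_iff_not_dvd hp]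
      exact prime_not_dvd_ten hc hp hpn
    · exact (h50.trans h14.le).trans (hbig p hp hpn)
    · exact (((hiff p hp).1 hlt).le).trans hyD)
  have hset : n.primeFactors.filter (fun p : ℕ => Real.log p < ly) =
      ((range ⌈DE L ^ (999 / 1000 : ℝ)⌉₊).filter
      (fun p : ℕ => p.Prime ∧ ¬ p ∣ 10 ∧ DE L ^ (1 / 8 : ℝ) ≤ p)).filter (fun p => p ∣ n) := by
    ext p
    simp only [mem_filter, mem_range, Nat.mem_primeFactors]
    constructor
    · rintro ⟨⟨hp, hpn, _⟩, hlt⟩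
      exact ⟨⟨Nat.lt_ceil.2 ((hiff p hp).1 hlt), hp, prime_not_dvd_ten hc hp hpn, hbig p hp hpn⟩, hpn⟩
    · rintro ⟨⟨hlt, hp, _, _⟩, hpn⟩
      exact ⟨⟨hp, hpn, hn0⟩, (hiff p hp).2 (Nat.lt_ceil.1 hlt)⟩
  rw [hset] at hom
  have hlogn : Real.log n ≤ (2 * L + 1) * Real.log 10 := by
    have : (n : ℝ) ≤ (10 : ℝ) ^ (2 * L + 1) := by exact_mod_cast h2.le
    calc Real.log n ≤ Real.log ((10 : ℝ) ^ (2 * L + 1)) :=
          Real.log_le_log (by exact_mod_cast hnpos) this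
      _ = _ := by rw [Real.log_pow]; push_cast; ring
  have hratio : Real.log n / ly ≤ 3339 / 1000 := by
    rw [div_le_iff₀ hly0, hly, hlD]
    refine hlogn.trans ?_
    have : (2 * (L : ℝ) + 1) ≤ 3339 / 1000 * (999 / 1000 * (3 / 5 * L)) := by nlinarith
    calc (2 * (L : ℝ) + 1) * Real.log 10 ≤
          3339 / 1000 * (999 / 1000 * (3 / 5 * L)) * Real.log 10 :=
          mul_le_mul_of_nonneg_right this hl10.le
      _ = _ := by ring
  have hlt : (n.primeFactorsList.length : ℝ) < 5 := by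
    have h7 : ∑ p ∈ ((range ⌈DE L ^ (999 / 1000 : ℝ)⌉₊).filter
      (fun p : ℕ => p.Prime ∧ ¬ p ∣ 10 ∧ DE L ^ (1 / 8 : ℝ) ≤ p)).filter (fun p => p ∣ n),
        (1 - Real.log p / ly) < 83 / 50 := by linarith
    linarith
  have : n.primeFactorsList.length < 5 := by exact_mod_cast hlt
  omega


lemma tendsto_z8 : Tendsto (fun L : ℕ => ⌈DE L ^ (1 / 8 : ℝ)⌉₊) atTop atTop := by
  have h1 : Tendsto (fun L : ℕ => (10 : ℝ) ^ ((3 / 5 : ℝ) / 8 * (L : ℝ))) atTop atTop := by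
    apply (tendsto_rpow_atTop_of_base_gt_one 10 (by norm_num)).comp
    exact (tendsto_natCast_atTop_atTop).const_mul_atTop (by norm_num)
  have h2 : Tendsto (fun L : ℕ => DE L ^ (1 / 8 : ℝ)) atTop atTop := by
    refine h1.congr fun L => ?_
    unfold DE
    rw [← Real.rpow_mul (by norm_num)]
    congr 1; ring
  exact tendsto_nat_ceil_atTop.comp h2

lemma tendsto_DE : Tendsto DE atTop atTop := by
  apply (tendsto_rpow_atTop_of_base_gt_one 10 (by norm_num)).comp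
  exact (tendsto_natCast_atTop_atTop).const_mul_atTop (by norm_num)

lemma logz8_le {L : ℕ} (hL : 1 ≤ L) : Real.log (⌈DE L ^ (1 / 8 : ℝ)⌉₊ : ℝ) ≤ 3 * L := by
  have hL' : (1 : ℝ) ≤ L := by exact_mod_cast hL
  have hD1 : 1 ≤ DE L := by
    unfold DE
    apply Real.one_le_rpow (by norm_num)
    positivity
  have h0 : 1 ≤ DE L ^ (1 / 8 : ℝ) := Real.one_le_rpow hD1 (by norm_num)
  have h1 : (⌈DE L ^ (1 / 8 : ℝ)⌉₊ : ℝ) ≤ 2 * DE L ^ (1 / 8 : ℝ) := by
    have := Nat.ceil_lt_add_one (show 0 ≤ DE L ^ (1 / 8 : ℝ) by linarith)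
    linarith
  have h2 : (0 : ℝ) < (⌈DE L ^ (1 / 8 : ℝ)⌉₊ : ℝ) := by
    have := Nat.le_ceil (DE L ^ (1 / 8 : ℝ))
    linarith
  have h3 : Real.log 10 ≤ 3 := by
    have h4 : (10 : ℝ) ≤ Real.exp 3 := by
      have := Real.exp_one_gt_d9
      have e : Real.exp 3 = Real.exp 1 ^ 3 := by rw [← Real.exp_nat_mul]; norm_num
      rw [e]
      calc (10 : ℝ) ≤ 2.7 ^ 3 := by norm_num
        _ ≤ _ := by gcongr; linarith
    calc Real.log 10 ≤ Real.log (Real.exp 3) := Real.log_le_log (by norm_num) h4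
      _ = 3 := Real.log_exp 3
  have h5 : Real.log 2 ≤ 1 := by linarith [Real.log_two_lt_d9]
  calc Real.log (⌈DE L ^ (1 / 8 : ℝ)⌉₊ : ℝ) ≤ Real.log (2 * DE L ^ (1 / 8 : ℝ)) := Real.log_le_log h2 h1
    _ = Real.log 2 + 1 / 8 * (3 / 5 * L * Real.log 10) := by
        rw [Real.log_mul (by norm_num) (by positivity), Real.log_rpow (DE_pos L), log_DE]
    _ ≤ 1 + 1 / 8 * (3 / 5 * L * 3) := by gcongr
    _ ≤ 3 * L := by nlinarith

open Classical in
theorem final2_of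
    (hlow : ∃ D₀ : ℝ, ∀ D : ℝ, D₀ ≤ D → ∀ (ι : Type) (S : Finset ι) (v : ι → ℕ) (X : ℝ), 0 ≤ X →
      95 / 100 * X * VZ ⌈D ^ (1 / 8 : ℝ)⌉₊ - Rem S v X D ≤ sift S v 1 ⌈D ^ (1 / 8 : ℝ)⌉₊)
    (hup : ∃ D₀ : ℝ, ∀ D : ℝ, D₀ ≤ D → ∀ (ι : Type) (S : Finset ι) (v : ι → ℕ) (X : ℝ), 0 ≤ X →
      ∑ p ∈ (range ⌈D ^ (999 / 1000 : ℝ)⌉₊).filter (fun p : ℕ => p.Prime ∧ ¬ p ∣ 10 ∧ D ^ (1 / 8 : ℝ) ≤ p),
        (1 - Real.log p / (999 / 1000 * Real.log D)) * sift S v p ⌈D ^ (1 / 8 : ℝ)⌉₊ ≤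
        3 / 2 * X * VZ ⌈D ^ (1 / 8 : ℝ)⌉₊ + Rem S v X D)
    (hBV : ∀ (A : ℕ), ∀ᶠ L : ℕ in atTop, ∀ h : ℕ → ℕ,
      ∑ q ∈ (Icc 1 ⌊(10 : ℝ) ^ ((3 / 5 : ℝ) * L)⌋₊).filter (fun q => q.Coprime 10),
        (q.divisors.card : ℝ) ^ 2 * |cnt L q (h q) - 10 ^ L / q| ≤ 10 ^ L / (L : ℝ) ^ A)
    (hsquares : ∀ (A : ℕ), ∀ᶠ L : ℕ in atTop,
      (((univ : Finset (Fin L → Fin 10)).filter (fun m => ∃ p : ℕ, p.Coprime 10 ∧
        (10 : ℝ) ^ ((L : ℝ) / 50) ≤ p ∧ (p : ℝ) ≤ (10 : ℝ) ^ ((3 / 5 : ℝ) * L) ∧ p ^ 2 ∣ pv L m)).card : ℝ)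
        ≤ 10 ^ L / (L : ℝ) ^ A)
    (hV : Tendsto (fun z : ℕ => VZ z * Real.log z) atTop
      (𝓝 (5 / 2 * Real.exp (-Real.eulerMascheroniConstant))))
    (hdig : ∀ (L : ℕ) (_ : 1 ≤ L) (m : Fin L → Fin 10),
      (Nat.digits 10 (pv L m)).reverse = Nat.digits 10 (pv L m) ∧
      10 ^ (2 * L) < pv L m ∧ pv L m < 10 ^ (2 * L + 1))
    (hinj : ∀ (L : ℕ) (_ : 1 ≤ L), Function.Injective (pv L))
    (hcop : ∀ (L : ℕ) (_ : 1 ≤ L) (m : Fin L → Fin 10), (pv L m).Coprime 10) :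
    ∃ c : ℝ, 0 < c ∧ ∀ᶠ L : ℕ in atTop,
    c * 10 ^ L / L ≤ (((range (10 ^ (2 * L + 1))).filter (fun n => 10 ^ (2 * L) ≤ n ∧
      (Nat.digits 10 n).reverse = Nat.digits 10 n ∧ n.primeFactorsList.length ≤ 4 ∧
      ∀ p ∈ n.primeFactorsList, (10 : ℝ) ^ ((L : ℝ) / 14) < p)).card : ℝ) := by
  obtain ⟨D₁, hlow⟩ := hlow
  obtain ⟨D₂, hup⟩ := hup
  set K : ℝ := 5 / 2 * Real.exp (-Real.eulerMascheroniConstant) with hK
  have hK0 : 0 < K := by positivity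
  refine ⟨K / 300, by positivity, ?_⟩
  have e1 : ∀ᶠ L : ℕ in atTop, K / 2 < VZ ⌈DE L ^ (1 / 8 : ℝ)⌉₊ * Real.log (⌈DE L ^ (1 / 8 : ℝ)⌉₊ : ℝ) :=
    (hV.comp tendsto_z8).eventually_const_lt (by linarith)
  have e2 : ∀ᶠ L : ℕ in atTop, max D₁ D₂ ≤ DE L := tendsto_DE.eventually_ge_atTop _
  have e3 := hBV 3
  have e4 := hsquares 3
  have e5 : ∀ᶠ L : ℕ in atTop, (max 1000 (5000 / K) : ℝ) ≤ L :=
    tendsto_natCast_atTop_atTop.eventually_ge_atTop _
  filter_upwards [e1, e2, e3, e4, e5] with L h1 h2 h3 h4 h5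
  have hL1000 : (1000 : ℝ) ≤ L := (le_max_left _ _).trans h5
  have hLK : 5000 / K ≤ L := (le_max_right _ _).trans h5
  have hL : 1000 ≤ L := by exact_mod_cast hL1000
  have hL1 : 1 ≤ L := by omega
  have hL0 : (0 : ℝ) < L := by linarith
  set z := ⌈DE L ^ (1 / 8 : ℝ)⌉₊ with hz
  have hlz := logz8_le hL1
  rw [← hz] at hlz
  have hVpos : 0 < VZ z := by
    unfold VZ
    apply prod_pos
    intro p hp
    rw [mem_filter] at hp
    have : (1 : ℝ) < p := by exact_mod_cast hp.2.1.one_lt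
    have : 1 / (p : ℝ) < 1 := by rw [div_lt_one (by linarith)]; exact this
    linarith
  have hVL : K / (6 * L) ≤ VZ z := by
    rw [div_le_iff₀ (by positivity)]
    nlinarith
  set X : ℝ := 10 ^ L with hX
  have hX0 : 0 < X := by positivity
  have hlow' := hlow (DE L) ((le_max_left _ _).trans h2) (Fin L → Fin 10) univ (pv L) X hX0.le
  have hup' := hup (DE L) ((le_max_right _ _).trans h2) (Fin L → Fin 10) univ (pv L) X hX0.le
  rw [← hz] at hlow' hup'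
  have hRem : Rem (univ : Finset (Fin L → Fin 10)) (pv L) X (DE L) ≤ X / (L : ℝ) ^ 3 := by
    have := h3 (fun _ => 0)
    unfold Rem
    simp only [hX, rem_eq]
    exact this
  set P := (range ⌈DE L ^ (999 / 1000 : ℝ)⌉₊).filter
    (fun p : ℕ => p.Prime ∧ ¬ p ∣ 10 ∧ DE L ^ (1 / 8 : ℝ) ≤ p) with hP
  set c : ℕ → ℝ := fun p => 1 - Real.log p / (999 / 1000 * Real.log (DE L)) with hc
  set w : (Fin L → Fin 10) → ℝ := fun m => 1 - 50 / 83 * ∑ p ∈ P.filter (fun p => p ∣ pv L m), c p with hw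
  have hws := weight_sum (univ : Finset (Fin L → Fin 10)) (pv L) z P c (50 / 83)
  have hlD0 : 0 < Real.log (DE L) := by
    rw [log_DE]
    have : 0 < Real.log 10 := Real.log_pos (by norm_num)
    positivity
  have hcnn : ∀ p ∈ P, 0 ≤ c p := by
    intro p hp
    rw [hP, mem_filter, mem_range] at hp
    have h6 : (p : ℝ) < DE L ^ (999 / 1000 : ℝ) := Nat.lt_ceil.1 hp.1
    have h7 : Real.log p ≤ 999 / 1000 * Real.log (DE L) := by
      rw [← Real.log_rpow (DE_pos L)]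
      exact Real.log_le_log (by exact_mod_cast hp.2.1.pos) h6.le
    simp only [hc]
    rw [sub_nonneg, div_le_one (by positivity)]
    exact h7
  set T := (univ : Finset (Fin L → Fin 10)).filter (fun m => (pv L m).Coprime (PZ z)) with hT
  set B := (univ : Finset (Fin L → Fin 10)).filter (fun m => ∃ p : ℕ, p.Coprime 10 ∧
        (10 : ℝ) ^ ((L : ℝ) / 50) ≤ p ∧ (p : ℝ) ≤ (10 : ℝ) ^ ((3 / 5 : ℝ) * L) ∧ p ^ 2 ∣ pv L m) with hB
  have hcp := count_pos T B w (by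
    intro m _
    have : 0 ≤ ∑ p ∈ P.filter (fun p => p ∣ pv L m), c p :=
      sum_nonneg fun p hp => hcnn p (mem_filter.1 hp).1
    simp only [hw]
    linarith)
  have hsumT : ∑ m ∈ T, w m = sift (univ : Finset (Fin L → Fin 10)) (pv L) 1 z -
      50 / 83 * ∑ p ∈ P, c p * sift (univ : Finset (Fin L → Fin 10)) (pv L) p z := hws
  have hmain : X * VZ z / 25 ≤ ∑ m ∈ T, w m + 2 * (X / (L : ℝ) ^ 3) := by
    rw [hsumT]
    have h8 : 0 ≤ X / (L : ℝ) ^ 3 := by positivity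
    have h9 : 0 < X * VZ z := by positivity
    have hup'' : ∑ p ∈ P, c p * sift (univ : Finset (Fin L → Fin 10)) (pv L) p z ≤
        3 / 2 * X * VZ z + Rem (univ : Finset (Fin L → Fin 10)) (pv L) X (DE L) := hup'
    generalize X / (L : ℝ) ^ 3 = r at *
    generalize Rem (univ : Finset (Fin L → Fin 10)) (pv L) X (DE L) = R at *
    linarith
  -- the injection
  have hcard : ((T.filter (fun i => 0 < w i)) \ B).card ≤
      ((range (10 ^ (2 * L + 1))).filter (fun n => 10 ^ (2 * L) ≤ n ∧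
      (Nat.digits 10 n).reverse = Nat.digits 10 n ∧ n.primeFactorsList.length ≤ 4 ∧
      ∀ p ∈ n.primeFactorsList, (10 : ℝ) ^ ((L : ℝ) / 14) < p)).card := by
    apply card_le_card_of_injOn (pv L)
    · intro m hm
      rw [mem_coe, Finset.mem_sdiff, mem_filter, hT, mem_filter] at hm
      obtain ⟨⟨⟨_, hs⟩, hwm⟩, hmB⟩ := hm
      obtain ⟨hd1, hd2, hd3⟩ := hdig L hL1 m
      have hg := good4 hL hd2 hd3 (hcop L hL1 m) hs (by
        intro p hp1 hp2 hp3 hp4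
        apply hmB
        rw [hB, mem_filter]
        exact ⟨mem_univ _, p, hp1, hp2, hp3, hp4⟩) hwm
      rw [mem_coe, mem_filter, mem_range]
      exact ⟨hd3, hd2.le, hd1, hg.1, hg.2⟩
    · intro a _ b _ hab
      exact hinj L hL1 hab
  have hcard' : (((T.filter (fun i => 0 < w i)) \ B).card : ℝ) ≤
      (((range (10 ^ (2 * L + 1))).filter (fun n => 10 ^ (2 * L) ≤ n ∧
      (Nat.digits 10 n).reverse = Nat.digits 10 n ∧ n.primeFactorsList.length ≤ 4 ∧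
      ∀ p ∈ n.primeFactorsList, (10 : ℝ) ^ ((L : ℝ) / 14) < p)).card : ℝ) := by exact_mod_cast hcard
  refine le_trans ?_ (hcp.trans hcard')
  have hBc : (B.card : ℝ) ≤ X / (L : ℝ) ^ 3 := h4
  have h10 : X * (K / (6 * L)) / 25 ≤ X * VZ z / 25 := by gcongr
  have h11 : X / (L : ℝ) ^ 3 * 3 ≤ K * X / (300 * L) := by
    rw [div_mul_eq_mul_div, div_le_div_iff₀ (by positivity) (by positivity)]
    have h12 : 5000 ≤ K * L := by rwa [div_le_iff₀ hK0, mul_comm] at hLK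
    have h13 : 900 ≤ K * L ^ 2 := by nlinarith
    calc X * 3 * (300 * L) = X * L * 900 := by ring
      _ ≤ X * L * (K * L ^ 2) := by gcongr
      _ = _ := by ring
  have h14 : X * (K / (6 * L)) / 25 = K * X / (150 * L) := by
    field_simp; ring
  have h15 : K * X / (150 * L) = 2 * (K * X / (300 * L)) := by
    field_simp; ring
  have h16 : K / 300 * X / L = K * X / (300 * L) := by
    field_simp
  rw [h16]
  linarith

end Pool.Agent.H476R2.Pal
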