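import Mathlib
import Pool.Agent.H476R2.Pal.BV
import Pool.Agent.H476R2.Pal.F3
import Pool.Agent.H329R2.PalS6
import Pool.Agent.H483R2.PalS5
import Pool.Agent.H503R2.PalS4
import Pool.Agent.H605R2.PalS1
import Pool.Agent.H965R2.PalS3
import Pool.Agent.H187R2.PalT10

set_option autoImplicit false

namespace Pool.Agent.H476R2.Pal

open Finset Filter Topology Pool.Agent.Helper112

theorem upper : ∃ D₀ : ℝ, ∀ D : ℝ, D₀ ≤ D → ∀ (ι : Type) (S : Finset ι) (v : ι → ℕ) (X : ℝ), 0 ≤ X →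
    ∑ p ∈ (range ⌈D ^ (995 / 1000 : ℝ)⌉₊).filter (fun p : ℕ => p.Prime ∧ ¬ p ∣ 10 ∧ D ^ (1 / 12 : ℝ) ≤ p),
      (1 - Real.log p / (995 / 1000 * Real.log D)) * sift S v p ⌈D ^ (1 / 12 : ℝ)⌉₊ ≤
      19 / 10 * X * VZ ⌈D ^ (1 / 12 : ℝ)⌉₊ + Rem S v X D :=
  Pool.Agent.H329R2.PalS6.upper_of
    (fun _ S v X hX z d hd hd0 ξ hξ => Pool.Agent.H605R2.PalS1.selberg S v X hX z d hd hd0 ξ hξ)
    Pool.Agent.H187R2.PalS2.rankin Pool.Agent.H965R2.PalS3.G_log Pool.Agent.H503R2.PalS4.V_lim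
    Pool.Agent.H503R2.PalS4.mertens_int

theorem lower : ∃ D₀ : ℝ, ∀ D : ℝ, D₀ ≤ D → ∀ (ι : Type) (S : Finset ι) (v : ι → ℕ) (X : ℝ), 0 ≤ X →
    99 / 100 * X * VZ ⌈D ^ (1 / 12 : ℝ)⌉₊ - Rem S v X D ≤ sift S v 1 ⌈D ^ (1 / 12 : ℝ)⌉₊ :=
  Pool.Agent.H483R2.PalS5.lower_of_lim Pool.Agent.H503R2.PalS4.V_lim

open Classical in
theorem final_sq
    (hsquares : ∀ (ε : ℝ) (_ : 0 < ε) (A : ℕ), ∀ᶠ L : ℕ in atTop,
      (((univ : Finset (Fin L → Fin 10)).filter (fun m => ∃ p : ℕ, p.Coprime 10 ∧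
        (10 : ℝ) ^ ((L : ℝ) / 50) ≤ p ∧ (p : ℝ) ≤ (10 : ℝ) ^ ((1 / 2 - ε) * L) ∧ p ^ 2 ∣ pv L m)).card : ℝ)
        ≤ 10 ^ L / (L : ℝ) ^ A) :
    ∃ c : ℝ, 0 < c ∧ ∀ᶠ L : ℕ in atTop,
    c * 10 ^ L / L ≤ (((range (10 ^ (2 * L + 1))).filter (fun n => 10 ^ (2 * L) ≤ n ∧
      (Nat.digits 10 n).reverse = Nat.digits 10 n ∧ n.primeFactorsList.length ≤ 5 ∧
      ∀ p ∈ n.primeFactorsList, (10 : ℝ) ^ ((L : ℝ) / 25) < p)).card : ℝ) :=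
  final_of lower upper BV hsquares Pool.Agent.H503R2.PalS4.V_lim Pool.Agent.H187R2.PalT10.pv_digits
    Pool.Agent.H187R2.PalT10.pv_inj Pool.Agent.H187R2.PalT10.pv_coprime

end Pool.Agent.H476R2.Pal
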