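import Mathlib
import Pool.Agent.H476R2.Pal.BV2
import Pool.Agent.H476R2.Pal.F4
import Pool.Agent.H329R2.PalQ10
import Pool.Agent.H503R2.PalS4
import Pool.Agent.H605R2.PalS1
import Pool.Agent.H965R2.PalS3
import Pool.Agent.H442R2.PalQ8
import Pool.Agent.H472R2.PalQ9
import Pool.Agent.H503R2.PalQ7
import Pool.Agent.H187R2.PalT10

/-! # Palindromes with at most four prime factors -/

set_option autoImplicit false

namespace Pool.Agent.H476R2.Pal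

open Finset Filter Topology Pool.Agent.Helper112

theorem upper2 : ∃ D₀ : ℝ, ∀ D : ℝ, D₀ ≤ D → ∀ (ι : Type) (S : Finset ι) (v : ι → ℕ) (X : ℝ), 0 ≤ X →
    ∑ p ∈ (range ⌈D ^ (999 / 1000 : ℝ)⌉₊).filter (fun p : ℕ => p.Prime ∧ ¬ p ∣ 10 ∧ D ^ (1 / 8 : ℝ) ≤ p),
      (1 - Real.log p / (999 / 1000 * Real.log D)) * sift S v p ⌈D ^ (1 / 8 : ℝ)⌉₊ ≤
      3 / 2 * X * VZ ⌈D ^ (1 / 8 : ℝ)⌉₊ + Rem S v X D :=
  Pool.Agent.H329R2.PalQ10.upper2_of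
    (fun _ S v X hX z d hd hd0 ξ hξ => Pool.Agent.H605R2.PalS1.selberg S v X hX z d hd hd0 ξ hξ)
    Pool.Agent.H442R2.PalQ8.G_H Pool.Agent.H965R2.PalS3.G_log Pool.Agent.H503R2.PalS4.V_lim
    Pool.Agent.H503R2.PalS4.mertens_int

open Classical in
theorem squares2 (A : ℕ) : ∀ᶠ L : ℕ in atTop,
    (((univ : Finset (Fin L → Fin 10)).filter (fun m => ∃ p : ℕ, p.Coprime 10 ∧
      (10 : ℝ) ^ ((L : ℝ) / 50) ≤ p ∧ (p : ℝ) ≤ (10 : ℝ) ^ ((3 / 5 : ℝ) * L) ∧ p ^ 2 ∣ pv L m)).card : ℝ)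
      ≤ 10 ^ L / (L : ℝ) ^ A :=
  Pool.Agent.H503R2.PalQ7.squares2_of (fun L J k K lam h0 h1 hJ hJL α => split L J k K lam h0 h1 hJ hJL α) A

theorem final2_low
    (hlow : ∃ D₀ : ℝ, ∀ D : ℝ, D₀ ≤ D → ∀ (ι : Type) (S : Finset ι) (v : ι → ℕ) (X : ℝ), 0 ≤ X →
      95 / 100 * X * VZ ⌈D ^ (1 / 8 : ℝ)⌉₊ - Rem S v X D ≤ sift S v 1 ⌈D ^ (1 / 8 : ℝ)⌉₊) :
    ∃ c : ℝ, 0 < c ∧ ∀ᶠ L : ℕ in atTop,
    c * 10 ^ L / L ≤ (((range (10 ^ (2 * L + 1))).filter (fun n => 10 ^ (2 * L) ≤ n ∧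
      (Nat.digits 10 n).reverse = Nat.digits 10 n ∧ n.primeFactorsList.length ≤ 4 ∧
      ∀ p ∈ n.primeFactorsList, (10 : ℝ) ^ ((L : ℝ) / 14) < p)).card : ℝ) :=
  final2_of hlow upper2 BV2 squares2 Pool.Agent.H503R2.PalS4.V_lim Pool.Agent.H187R2.PalT10.pv_digits
    Pool.Agent.H187R2.PalT10.pv_inj Pool.Agent.H187R2.PalT10.pv_coprime

/-- at least `c 10^L / L` palindromes with `2L+1` digits have at most four prime factors -/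
theorem final4 : ∃ c : ℝ, 0 < c ∧ ∀ᶠ L : ℕ in atTop,
    c * 10 ^ L / L ≤ (((range (10 ^ (2 * L + 1))).filter (fun n => 10 ^ (2 * L) ≤ n ∧
      (Nat.digits 10 n).reverse = Nat.digits 10 n ∧ n.primeFactorsList.length ≤ 4 ∧
      ∀ p ∈ n.primeFactorsList, (10 : ℝ) ^ ((L : ℝ) / 14) < p)).card : ℝ) :=
  final2_low Pool.Agent.H472R2.PalQ9.lower2

end Pool.Agent.H476R2.Pal
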